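import Pool.Agent.Helper2.GCA.Lam

namespace Anick2

section GCA
variable {ι : Type} (deg : ι → ℕ)

theorem gen_comm (i j : ι) :
    gen deg i * gen deg j = (-1 : ℚ) ^ (deg i * deg j) • (gen deg j * gen deg i) := by
  have h := RingQuot.mkAlgHom_rel ℚ (Rel.comm (deg := deg) i j)
  have h' : Lam.mk deg (FreeAlgebra.ι ℚ i * FreeAlgebra.ι ℚ j) =
      Lam.mk deg ((-1 : ℚ) ^ (deg i * deg j) • (FreeAlgebra.ι ℚ j * FreeAlgebra.ι ℚ i)) := h
  rw [map_mul, map_smul, map_mul] at h'
  exact h'

/-- Universal property of `ΛV`. -/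
noncomputable def Lam.lift {B : Type} [Ring B] [Algebra ℚ B] (f : ι → B)
    (h : ∀ i j, f i * f j = (-1 : ℚ) ^ (deg i * deg j) • (f j * f i)) : Lam deg →ₐ[ℚ] B :=
  RingQuot.liftAlgHom ℚ (s := Rel deg) ⟨FreeAlgebra.lift ℚ f, by
    rintro _ _ ⟨i, j⟩
    simpa [map_mul, map_smul] using h i j⟩

@[simp] theorem Lam.lift_gen {B : Type} [Ring B] [Algebra ℚ B] (f : ι → B)
    (h : ∀ i j, f i * f j = (-1 : ℚ) ^ (deg i * deg j) • (f j * f i)) (i : ι) :
    Lam.lift deg f h (gen deg i) = f i := by
  have h1 := RingQuot.liftAlgHom_mkAlgHom_apply ℚ (FreeAlgebra.lift ℚ f) (s := Rel deg) (by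
    rintro _ _ ⟨i, j⟩
    simpa [map_mul, map_smul] using h i j) (FreeAlgebra.ι ℚ i)
  exact h1.trans (FreeAlgebra.lift_ι_apply f i)

@[simp] theorem mon_nil : mon deg [] = 1 := rfl
@[simp] theorem mon_cons (i : ι) (l : List ι) : mon deg (i :: l) = gen deg i * mon deg l := by
  simp [mon]
theorem mon_append (l l' : List ι) : mon deg (l ++ l') = mon deg l * mon deg l' := by
  simp [mon]

@[simp] theorem degSum_nil : degSum deg [] = 0 := rfl
@[simp] theorem degSum_cons (i : ι) (l : List ι) : degSum deg (i :: l) = deg i + degSum deg l := by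
  simp [degSum]
theorem degSum_append (l l' : List ι) : degSum deg (l ++ l') = degSum deg l + degSum deg l' := by
  simp [degSum]

theorem span_mon : Submodule.span ℚ (Set.range (mon deg)) = ⊤ := by
  rw [eq_top_iff]
  rintro a -
  obtain ⟨a, rfl⟩ : ∃ b, Lam.mk deg b = a := RingQuot.mkAlgHom_surjective ℚ (Rel deg) a
  induction a using FreeAlgebra.induction with
  | grade0 r =>
    rw [AlgHom.commutes, Algebra.algebraMap_eq_smul_one]
    exact Submodule.smul_mem _ _ (Submodule.subset_span ⟨[], rfl⟩)
  | grade1 i =>
    refine Submodule.subset_span ⟨[i], ?_⟩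
    simp [gen]
  | add a b ha hb => rw [map_add]; exact add_mem ha hb
  | mul a b ha hb =>
    rw [map_mul]
    have hm : ∀ x ∈ Submodule.span ℚ (Set.range (mon deg)),
        ∀ y ∈ Submodule.span ℚ (Set.range (mon deg)),
        x * y ∈ Submodule.span ℚ (Set.range (mon deg)) := by
      intro x hx y hy
      induction hx using Submodule.span_induction with
      | mem x hx =>
        obtain ⟨l, rfl⟩ := hx
        induction hy using Submodule.span_induction with
        | mem y hy =>
          obtain ⟨l', rfl⟩ := hy
          exact Submodule.subset_span ⟨l ++ l', mon_append deg l l'⟩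
        | zero => simp
        | add y z _ _ hy hz => rw [mul_add]; exact add_mem hy hz
        | smul r y _ hy => rw [mul_smul_comm]; exact Submodule.smul_mem _ _ hy
      | zero => simp
      | add y z _ _ hy hz => rw [add_mul]; exact add_mem hy hz
      | smul r y _ hy => rw [smul_mul_assoc]; exact Submodule.smul_mem _ _ hy
    exact hm _ ha _ hb

theorem Lam.induction {C : Lam deg → Prop} (a : Lam deg)
    (hm : ∀ l, C (mon deg l)) (h0 : C 0) (hadd : ∀ a b, C a → C b → C (a + b))
    (hsmul : ∀ (r : ℚ) a, C a → C (r • a)) : C a := by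
  have : a ∈ Submodule.span ℚ (Set.range (mon deg)) := by rw [span_mon]; trivial
  induction this using Submodule.span_induction with
  | mem x hx => obtain ⟨l, rfl⟩ := hx; exact hm l
  | zero => exact h0
  | add y z _ _ hy hz => exact hadd _ _ hy hz
  | smul r y _ hy => exact hsmul _ _ hy

theorem Lam.algHom_ext {B : Type} [Ring B] [Algebra ℚ B] {f g : Lam deg →ₐ[ℚ] B}
    (h : ∀ i, f (gen deg i) = g (gen deg i)) : f = g := by
  refine AlgHom.ext fun a => ?_
  induction a using Lam.induction with
  | hm l =>
    induction l with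
    | nil => simp
    | cons i l ih => simp [h, ih]
  | h0 => simp
  | hadd a b ha hb => simp [ha, hb]
  | hsmul r a ha => simp [ha]

theorem Lam.linearMap_ext {B : Type} [AddCommMonoid B] [Module ℚ B] {f g : Lam deg →ₗ[ℚ] B}
    (h : ∀ l, f (mon deg l) = g (mon deg l)) : f = g := by
  refine LinearMap.ext fun a => ?_
  induction a using Lam.induction with
  | hm l => exact h l
  | h0 => simp
  | hadd a b ha hb => simp [ha, hb]
  | hsmul r a ha => simp [ha]

theorem mon_mem_hom (l : List ι) : mon deg l ∈ hom deg (degSum deg l) :=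
  Submodule.subset_span ⟨l, rfl, rfl⟩

theorem gen_mem_hom (i : ι) : gen deg i ∈ hom deg (deg i) := by
  simpa using mon_mem_hom deg [i]

theorem hom_induction {n : ℕ} {C : Lam deg → Prop}
    (hm : ∀ l, degSum deg l = n → C (mon deg l)) (h0 : C 0) (hadd : ∀ a b, C a → C b → C (a + b))
    (hsmul : ∀ (r : ℚ) a, C a → C (r • a)) {a : Lam deg} (ha : a ∈ hom deg n) : C a := by
  unfold hom at ha
  induction ha using Submodule.span_induction with
  | mem x hx => obtain ⟨l, hl, rfl⟩ := hx; exact hm l hl
  | zero => exact h0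
  | add y z _ _ hy hz => exact hadd _ _ hy hz
  | smul r y _ hy => exact hsmul _ _ hy

theorem mul_mem_hom {n m : ℕ} {a b : Lam deg} (ha : a ∈ hom deg n) (hb : b ∈ hom deg m) :
    a * b ∈ hom deg (n + m) := by
  refine hom_induction deg (C := fun a => a * b ∈ hom deg (n + m)) (fun l hl => ?_) (by simp)
    (fun a a' ha ha' => by rw [add_mul]; exact add_mem ha ha')
    (fun r a ha => by rw [smul_mul_assoc]; exact Submodule.smul_mem _ _ ha) ha
  refine hom_induction deg (C := fun b => mon deg l * b ∈ hom deg (n + m)) (fun l' hl' => ?_)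
    (by simp) (fun a a' ha ha' => by rw [mul_add]; exact add_mem ha ha')
    (fun r a ha => by rw [mul_smul_comm]; exact Submodule.smul_mem _ _ ha) hb
  rw [← mon_append, ← hl, ← hl', ← degSum_append]
  exact mon_mem_hom deg _

/-- Graded commutativity of `ΛV`. -/
theorem hom_comm {n m : ℕ} {a b : Lam deg} (ha : a ∈ hom deg n) (hb : b ∈ hom deg m) :
    a * b = (-1 : ℚ) ^ (n * m) • (b * a) := by
  have key1 : ∀ (i : ι) (l : List ι), gen deg i * mon deg l =
      (-1 : ℚ) ^ (deg i * degSum deg l) • (mon deg l * gen deg i) := by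
    intro i l
    induction l with
    | nil => simp
    | cons j l ih =>
      rw [mon_cons, ← mul_assoc, gen_comm, smul_mul_assoc, mul_assoc, ih, mul_smul_comm, smul_smul,
        ← mul_assoc, degSum_cons, ← pow_add, mul_add]
  have key2 : ∀ (l l' : List ι), mon deg l * mon deg l' =
      (-1 : ℚ) ^ (degSum deg l * degSum deg l') • (mon deg l' * mon deg l) := by
    intro l l'
    induction l with
    | nil => simp
    | cons j l ih =>
      rw [mon_cons, mul_assoc, ih, mul_smul_comm, ← mul_assoc, key1, smul_mul_assoc, smul_smul,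
        mul_assoc, degSum_cons, ← pow_add, add_mul, add_comm]
  refine hom_induction deg (C := fun a => a * b = (-1 : ℚ) ^ (n * m) • (b * a))
    (fun l hl => ?_) (by simp)
    (fun a a' ha ha' => by rw [add_mul, mul_add, ha, ha', smul_add])
    (fun r a ha => by rw [mul_smul_comm, smul_mul_assoc, ha, smul_comm]) ha
  refine hom_induction deg (C := fun b => mon deg l * b = (-1 : ℚ) ^ (n * m) • (b * mon deg l))
    (fun l' hl' => ?_) (by simp)
    (fun a a' ha ha' => by rw [mul_add, add_mul, ha, ha', smul_add])
    (fun r a ha => by rw [mul_smul_comm, smul_mul_assoc, ha, smul_comm]) hb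
  rw [key2, hl, hl']

/-- The sign involution `a ↦ (-1)^|a| a`. -/
noncomputable def sgn : Lam deg →ₐ[ℚ] Lam deg :=
  Lam.lift deg (fun i => (-1 : ℚ) ^ deg i • gen deg i) (by
    intro i j
    rw [smul_mul_smul_comm, smul_mul_smul_comm, gen_comm, smul_smul, smul_smul]
    congr 1; ring)

theorem sgn_gen (i : ι) : sgn deg (gen deg i) = (-1 : ℚ) ^ deg i • gen deg i := by
  simp [sgn]

theorem sgn_mon (l : List ι) : sgn deg (mon deg l) = (-1 : ℚ) ^ degSum deg l • mon deg l := by
  induction l with
  | nil => simp
  | cons i l ih =>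
    rw [mon_cons, map_mul, ih, sgn_gen, smul_mul_smul_comm, degSum_cons, pow_add]

theorem sgn_hom {n : ℕ} {a : Lam deg} (ha : a ∈ hom deg n) : sgn deg a = (-1 : ℚ) ^ n • a := by
  refine hom_induction deg (C := fun a => sgn deg a = (-1 : ℚ) ^ n • a)
    (fun l hl => by rw [sgn_mon, hl]) (by simp) (fun a b ha hb => by rw [map_add, ha, hb, smul_add])
    (fun r a ha => by rw [map_smul, ha, smul_comm]) ha

/-! ### the grading -/

/-- The algebra map recording the grading. -/
noncomputable def grad : Lam deg →ₐ[ℚ] Polynomial (Lam deg) :=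
  Lam.lift deg (fun i => Polynomial.monomial (deg i) (gen deg i)) (by
    intro i j
    rw [Polynomial.monomial_mul_monomial, Polynomial.monomial_mul_monomial, gen_comm,
      Polynomial.smul_monomial, add_comm])

theorem grad_mon (l : List ι) :
    grad deg (mon deg l) = Polynomial.monomial (degSum deg l) (mon deg l) := by
  induction l with
  | nil => simp
  | cons i l ih =>
    rw [mon_cons, map_mul, ih]
    simp [grad, Polynomial.monomial_mul_monomial]

theorem grad_hom {n : ℕ} {a : Lam deg} (ha : a ∈ hom deg n) :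
    grad deg a = Polynomial.monomial n a := by
  refine hom_induction deg (C := fun a => grad deg a = Polynomial.monomial n a)
    (fun l hl => by rw [grad_mon, hl]) (by simp) (fun a b ha hb => by rw [map_add, ha, hb, map_add])
    (fun r a ha => by rw [map_smul, ha, Polynomial.smul_monomial]) ha

/-- The projection onto the component of degree `n`. -/
noncomputable def pr (n : ℕ) : Lam deg →ₗ[ℚ] Lam deg where
  toFun a := (grad deg a).coeff n
  map_add' a b := by simp
  map_smul' r a := by simp

theorem pr_hom {n m : ℕ} {a : Lam deg} (ha : a ∈ hom deg n) :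
    pr deg m a = if n = m then a else 0 := by
  simp [pr, grad_hom deg ha, Polynomial.coeff_monomial]

theorem pr_mem (n : ℕ) (a : Lam deg) : pr deg n a ∈ hom deg n := by
  induction a using Lam.induction with
  | hm l =>
    rw [pr_hom deg (mon_mem_hom deg l)]
    split
    · rename_i h; rw [← h]; exact mon_mem_hom deg l
    · exact zero_mem _
  | h0 => simp
  | hadd a b ha hb => rw [map_add]; exact add_mem ha hb
  | hsmul r a ha => rw [map_smul]; exact Submodule.smul_mem _ _ ha

theorem sum_pr (a : Lam deg) : ∃ N, ∀ M, N ≤ M → a = ∑ n ∈ Finset.range M, pr deg n a := by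
  induction a using Lam.induction with
  | hm l =>
    refine ⟨degSum deg l + 1, fun M hM => ?_⟩
    have : ∀ n ∈ Finset.range M, pr deg n (mon deg l) =
        if degSum deg l = n then mon deg l else 0 := fun n _ => pr_hom deg (mon_mem_hom deg l)
    rw [Finset.sum_congr rfl this, Finset.sum_ite_eq, if_pos]
    simpa using Nat.lt_of_succ_le hM
  | h0 => exact ⟨0, fun M _ => by simp⟩
  | hadd a b ha hb =>
    obtain ⟨N, hN⟩ := ha
    obtain ⟨N', hN'⟩ := hb
    refine ⟨max N N', fun M hM => ?_⟩
    simp only [map_add, Finset.sum_add_distrib]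
    rw [← hN M (le_trans (le_max_left _ _) hM), ← hN' M (le_trans (le_max_right _ _) hM)]
  | hsmul r a ha =>
    obtain ⟨N, hN⟩ := ha
    refine ⟨N, fun M hM => ?_⟩
    simp only [map_smul, ← Finset.smul_sum]
    rw [← hN M hM]

/-! ### derivations -/

section Deriv
variable (D : ι → Lam deg) (hD : ∀ i, D i ∈ hom deg (deg i + 1))

/-- The triangular matrix representation encoding the derivation with values `D i` on `v_i`. -/
noncomputable def dM : Lam deg →ₐ[ℚ] Matrix (Fin 2) (Fin 2) (Lam deg) :=
  Lam.lift deg (fun i => !![sgn deg (gen deg i), D i; 0, gen deg i]) (by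
    intro i j
    have h1 : sgn deg (gen deg i) * D j = (-1 : ℚ) ^ (deg i * deg j) • (D j * gen deg i) := by
      rw [sgn_gen, smul_mul_assoc, hom_comm deg (gen_mem_hom deg i) (hD j), smul_smul]
      congr 1
      rw [← pow_add, mul_add, mul_one, ← add_assoc, add_comm (deg i), add_assoc, pow_add,
        ← two_mul, pow_mul]
      simp
    have h2 : D i * gen deg j = (-1 : ℚ) ^ (deg i * deg j) • (sgn deg (gen deg j) * D i) := by
      rw [sgn_gen, smul_mul_assoc, hom_comm deg (hD i) (gen_mem_hom deg j), smul_smul]
      congr 1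
      ring
    have h3 : sgn deg (gen deg i) * sgn deg (gen deg j) =
        (-1 : ℚ) ^ (deg i * deg j) • (sgn deg (gen deg j) * sgn deg (gen deg i)) := by
      rw [← map_mul, ← map_mul, gen_comm, map_smul]
    ext a b
    fin_cases a <;> fin_cases b
    · simpa [Matrix.mul_fin_two] using h3
    · simp only [Matrix.mul_fin_two, Matrix.smul_of, Fin.mk_one, Fin.isValue, Fin.zero_eta]
      simp only [Matrix.of_apply, Matrix.cons_val', Matrix.cons_val_zero, Matrix.cons_val_one,
        Pi.smul_apply, Matrix.smul_cons]
      simp only [smul_add]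
      rw [h1, h2, add_comm]
    · simp [Matrix.mul_apply, Fin.sum_univ_two]
    · simpa [Matrix.mul_fin_two] using gen_comm deg i j)

theorem dM_gen (i : ι) :
    dM deg D hD (gen deg i) = !![sgn deg (gen deg i), D i; 0, gen deg i] := by
  simp [dM]

theorem dM_entries (a : Lam deg) :
    dM deg D hD a 0 0 = sgn deg a ∧ dM deg D hD a 1 0 = 0 ∧ dM deg D hD a 1 1 = a := by
  induction a using Lam.induction with
  | hm l =>
    induction l with
    | nil => simp
    | cons i l ih =>
      rw [mon_cons, map_mul, dM_gen]
      obtain ⟨h1, h2, h3⟩ := ih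
      refine ⟨?_, ?_, ?_⟩
      · simp [Matrix.mul_apply, Fin.sum_univ_two, h1, h2]
      · simp [Matrix.mul_apply, Fin.sum_univ_two, h2]
      · simp [Matrix.mul_apply, Fin.sum_univ_two, h3]
  | h0 => simp
  | hadd a b ha hb => simp [ha.1, ha.2.1, ha.2.2, hb.1, hb.2.1, hb.2.2]
  | hsmul r a ha => simp [ha.1, ha.2.1, ha.2.2]

/-- The derivation of `ΛV` with `d v_i = D i`. -/
noncomputable def der : Lam deg →ₗ[ℚ] Lam deg where
  toFun a := dM deg D hD a 0 1
  map_add' a b := by simp
  map_smul' r a := by simp

theorem der_gen (i : ι) : der deg D hD (gen deg i) = D i := by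
  simp [der, dM_gen]

theorem der_one : der deg D hD 1 = 0 := by
  simp [der]

theorem der_mul (a b : Lam deg) :
    der deg D hD (a * b) = der deg D hD a * b + sgn deg a * der deg D hD b := by
  change dM deg D hD (a * b) 0 1 = _
  rw [map_mul, Matrix.mul_apply, Fin.sum_univ_two, (dM_entries deg D hD a).1,
    (dM_entries deg D hD b).2.2, add_comm]
  rfl

theorem der_leibniz {n : ℕ} {a : Lam deg} (ha : a ∈ hom deg n) (b : Lam deg) :
    der deg D hD (a * b) = der deg D hD a * b + (-1 : ℚ) ^ n • (a * der deg D hD b) := by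
  rw [der_mul, sgn_hom deg ha, smul_mul_assoc]

theorem der_mem {n : ℕ} {a : Lam deg} (ha : a ∈ hom deg n) : der deg D hD a ∈ hom deg (n + 1) := by
  refine hom_induction deg (C := fun a => der deg D hD a ∈ hom deg (n + 1)) ?_ (by simp)
    (fun a b ha hb => by rw [map_add]; exact add_mem ha hb)
    (fun r a ha => by rw [map_smul]; exact Submodule.smul_mem _ _ ha) ha
  intro l hl
  clear ha
  subst hl
  induction l with
  | nil => rw [mon_nil, der_one]; exact zero_mem _
  | cons i l ih =>
    rw [mon_cons, der_mul, der_gen, degSum_cons]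
    refine add_mem ?_ ?_
    · have := mul_mem_hom deg (hD i) (mon_mem_hom deg l)
      convert this using 2
      ring
    · rw [sgn_gen, smul_mul_assoc]
      refine Submodule.smul_mem _ _ ?_
      have := mul_mem_hom deg (gen_mem_hom deg i) ih
      convert this using 2
      ring

theorem der_sq (hDD : ∀ i, der deg D hD (D i) = 0) (a : Lam deg) :
    der deg D hD (der deg D hD a) = 0 := by
  induction a using Lam.induction with
  | hm l =>
    induction l with
    | nil => simp [der_one]
    | cons i l ih =>
      rw [mon_cons, der_mul, map_add, der_mul, der_mul, der_gen, hDD, ih, sgn_gen, map_smul,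
        der_gen, sgn_hom deg (hD i)]
      simp only [zero_mul, zero_add, mul_zero, add_zero, pow_succ, mul_neg, mul_one,
        smul_mul_assoc]
      rw [← add_smul, neg_add_cancel, zero_smul]
  | h0 => simp
  | hadd a b ha hb => simp [ha, hb]
  | hsmul r a ha => simp [ha]

theorem der_pr (n : ℕ) (a : Lam deg) :
    der deg D hD (pr deg n a) = pr deg (n + 1) (der deg D hD a) := by
  induction a using Lam.induction with
  | hm l =>
    rw [pr_hom deg (mon_mem_hom deg l), pr_hom deg (der_mem deg D hD (mon_mem_hom deg l))]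
    by_cases h : degSum deg l = n <;> simp [h]
  | h0 => simp
  | hadd a b ha hb => simp [ha, hb]
  | hsmul r a ha => simp [ha]

end Deriv

/-! ### homogeneous elements supported on a set of generators -/

/-- Homogeneous elements of degree `n` that are combinations of monomials in generators from `S`. -/
noncomputable def homS (S : Set ι) (n : ℕ) : Submodule ℚ (Lam deg) :=
  Submodule.span ℚ {a | ∃ l : List ι, (∀ i ∈ l, i ∈ S) ∧ degSum deg l = n ∧ a = mon deg l}

theorem mon_mem_homS {S : Set ι} (l : List ι) (hl : ∀ i ∈ l, i ∈ S) :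
    mon deg l ∈ homS deg S (degSum deg l) :=
  Submodule.subset_span ⟨l, hl, rfl, rfl⟩

theorem homS_le (S : Set ι) (n : ℕ) : homS deg S n ≤ hom deg n := by
  unfold homS
  rw [Submodule.span_le]
  rintro _ ⟨l, _, hl, rfl⟩
  rw [← hl]
  exact mon_mem_hom deg l

theorem homS_mono {S T : Set ι} (h : S ⊆ T) (n : ℕ) : homS deg S n ≤ homS deg T n := by
  unfold homS
  rw [Submodule.span_le]
  rintro _ ⟨l, hl, hn, rfl⟩
  exact Submodule.subset_span ⟨l, fun i hi => h (hl i hi), hn, rfl⟩

theorem homS_induction {S : Set ι} {n : ℕ} {C : Lam deg → Prop}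
    (hm : ∀ l, (∀ i ∈ l, i ∈ S) → degSum deg l = n → C (mon deg l)) (h0 : C 0)
    (hadd : ∀ a b, C a → C b → C (a + b))
    (hsmul : ∀ (r : ℚ) a, C a → C (r • a)) {a : Lam deg} (ha : a ∈ homS deg S n) : C a := by
  unfold homS at ha
  induction ha using Submodule.span_induction with
  | mem x hx => obtain ⟨l, hl, hn, rfl⟩ := hx; exact hm l hl hn
  | zero => exact h0
  | add y z _ _ hy hz => exact hadd _ _ hy hz
  | smul r y _ hy => exact hsmul _ _ hy

theorem degSum_ge (h1 : ∀ i, 1 ≤ deg i) (l : List ι) : l.length ≤ degSum deg l := by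
  induction l with
  | nil => simp
  | cons i l ih => have := h1 i; simp; omega

theorem homS_fg {S : Set ι} (hS : S.Finite) (h1 : ∀ i, 1 ≤ deg i) (n : ℕ) :
    (homS deg S n).FG := by
  unfold homS
  refine Submodule.fg_span ?_
  have : Finite S := hS
  have hfin : ((fun l : List S => mon deg (l.map Subtype.val)) '' {l : List S | l.length ≤ n}).Finite :=
    (List.finite_length_le S n).image _
  refine hfin.subset ?_
  rintro _ ⟨l, hl, hn, rfl⟩
  lift l to List S using hl
  refine ⟨l, ?_, rfl⟩
  have := degSum_ge deg h1 (l.map Subtype.val)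
  simp only [List.length_map] at this
  exact le_trans this (le_of_eq hn)

theorem der_congr {S : Set ι} (D D' : ι → Lam deg) (hD : ∀ i, D i ∈ hom deg (deg i + 1))
    (hD' : ∀ i, D' i ∈ hom deg (deg i + 1)) (h : ∀ i ∈ S, D i = D' i) {n : ℕ} {a : Lam deg}
    (ha : a ∈ homS deg S n) : der deg D hD a = der deg D' hD' a := by
  refine homS_induction deg (C := fun a => der deg D hD a = der deg D' hD' a) ?_ (by simp)
    (fun a b ha hb => by rw [map_add, map_add, ha, hb])
    (fun r a ha => by rw [map_smul, map_smul, ha]) ha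
  intro l hl hn
  clear hn ha
  induction l with
  | nil => rw [mon_nil, der_one, der_one]
  | cons i l ih =>
    rw [mon_cons, der_mul, der_mul, der_gen, der_gen, h i (hl i (by simp)),
      ih (fun j hj => hl j (by simp [hj]))]

/-! ### subalgebras on a subset of the generators -/

section Sub
variable (S : Set ι)

/-- The inclusion of the free graded-commutative algebra on a subset of the generators. -/
noncomputable def incl : Lam (fun i : S => deg i) →ₐ[ℚ] Lam deg :=
  Lam.lift _ (fun i => gen deg i) (fun i j => gen_comm deg i j)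

open Classical in
/-- The retraction killing the other generators. -/
noncomputable def retr : Lam deg →ₐ[ℚ] Lam (fun i : S => deg i) :=
  Lam.lift _ (fun i => if h : i ∈ S then gen (fun i : S => deg i) ⟨i, h⟩ else 0) (by
    intro i j
    by_cases hi : i ∈ S <;> by_cases hj : j ∈ S <;> simp [hi, hj]
    exact gen_comm (fun i : S => deg i) ⟨i, hi⟩ ⟨j, hj⟩)

theorem incl_gen (i : S) : incl deg S (gen _ i) = gen deg i := by simp [incl]

theorem retr_gen (i : S) : retr deg S (gen deg i) = gen (fun i : S => deg i) i := by simp [retr]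

theorem retr_incl (a : Lam (fun i : S => deg i)) : retr deg S (incl deg S a) = a := by
  have : (retr deg S).comp (incl deg S) = AlgHom.id ℚ _ := by
    refine Lam.algHom_ext _ fun i => ?_
    simp [incl_gen, retr_gen]
  exact congrArg (fun f : Lam (fun i : S => deg i) →ₐ[ℚ] Lam (fun i : S => deg i) => f a) this

theorem incl_injective : Function.Injective (incl deg S) :=
  Function.LeftInverse.injective (retr_incl deg S)

theorem incl_mon (l : List S) : incl deg S (mon _ l) = mon deg (l.map Subtype.val) := by
  induction l with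
  | nil => simp
  | cons i l ih => simp [ih, incl_gen]

theorem degSum_map (l : List S) :
    degSum deg (l.map Subtype.val) = degSum (fun i : S => deg i) l := by
  simp [degSum]

theorem incl_mem {n : ℕ} {a : Lam (fun i : S => deg i)} (ha : a ∈ hom (fun i : S => deg i) n) :
    incl deg S a ∈ homS deg S n := by
  refine hom_induction _ (C := fun a => incl deg S a ∈ homS deg S n) (fun l hl => ?_) (by simp)
    (fun a b ha hb => by rw [map_add]; exact add_mem ha hb)
    (fun r a ha => by rw [map_smul]; exact Submodule.smul_mem _ _ ha) ha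
  rw [incl_mon, ← hl, ← degSum_map]
  exact mon_mem_homS deg _ (by simp +contextual)

theorem homS_eq_incl {n : ℕ} {a : Lam deg} (ha : a ∈ homS deg S n) :
    ∃ a' ∈ hom (fun i : S => deg i) n, incl deg S a' = a := by
  refine homS_induction deg (C := fun a => ∃ a' ∈ hom (fun i : S => deg i) n, incl deg S a' = a)
    (fun l hl hn => ?_) ⟨0, zero_mem _, by simp⟩ ?_ ?_ ha
  · lift l to List S using hl
    refine ⟨mon _ l, ?_, incl_mon deg S l⟩
    rw [← hn, degSum_map]
    exact mon_mem_hom _ _
  · rintro a b ⟨a', ha', rfl⟩ ⟨b', hb', rfl⟩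
    exact ⟨a' + b', add_mem ha' hb', by simp⟩
  · rintro r a ⟨a', ha', rfl⟩
    exact ⟨r • a', Submodule.smul_mem _ _ ha', by simp⟩

theorem retr_mem {n : ℕ} {a : Lam deg} (ha : a ∈ homS deg S n) :
    retr deg S a ∈ hom (fun i : S => deg i) n := by
  obtain ⟨a', ha', rfl⟩ := homS_eq_incl deg S ha
  rw [retr_incl]
  exact ha'

theorem incl_retr {n : ℕ} {a : Lam deg} (ha : a ∈ homS deg S n) :
    incl deg S (retr deg S a) = a := by
  obtain ⟨a', ha', rfl⟩ := homS_eq_incl deg S ha
  rw [retr_incl]

variable (D : ι → Lam deg) (hD : ∀ i, D i ∈ hom deg (deg i + 1))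
  (hS : ∀ i ∈ S, D i ∈ homS deg S (deg i + 1))

/-- The restricted differential. -/
noncomputable def derS : Lam (fun i : S => deg i) →ₗ[ℚ] Lam (fun i : S => deg i) :=
  der (fun i : S => deg i) (fun i => retr deg S (D i)) (fun i => retr_mem deg S (hS i i.2))

theorem derS_gen (i : S) : derS deg S D hS (gen _ i) = retr deg S (D i) := by
  simp [derS, der_gen]

theorem incl_derS (a : Lam (fun i : S => deg i)) :
    incl deg S (derS deg S D hS a) = der deg D hD (incl deg S a) := by
  induction a using Lam.induction with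
  | hm l =>
    induction l with
    | nil => simp [derS, der_one]
    | cons i l ih =>
      have e : derS deg S D hS (gen _ i * mon _ l) =
          retr deg S (D i) * mon _ l + sgn _ (gen _ i) * derS deg S D hS (mon _ l) := by
        unfold derS
        rw [der_mul, der_gen]
      rw [mon_cons, e, map_mul (incl deg S) (gen _ i), der_mul, ← ih, map_add, map_mul, map_mul,
        incl_retr deg S (hS i i.2), incl_gen, der_gen, sgn_gen, sgn_gen, map_smul, incl_gen]
  | h0 => simp
  | hadd a b ha hb => simp [ha, hb]
  | hsmul r a ha => simp [ha]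

end Sub

end GCA

end Anick2
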