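import Pool.Agent.Helper2.GCA.Basic

namespace Anick2

variable {ι : Type} (deg : ι → ℕ)

theorem mem_le_degSum {i : ι} {l : List ι} (h : i ∈ l) : deg i ≤ degSum deg l := by
  obtain ⟨s, t, rfl⟩ := List.append_of_mem h
  rw [degSum_append, degSum_cons]
  omega

attribute [local irreducible] instRingLam in
theorem hom_fg (hfin : ∀ n, {i | deg i = n}.Finite) (h1 : ∀ i, 1 ≤ deg i) (n : ℕ) :
    (hom deg n).FG := by
  have hT : {i | deg i ≤ n}.Finite := by
    have : {i | deg i ≤ n} = ⋃ k ∈ Finset.range (n + 1), {i | deg i = k} := by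
      ext i
      simp
    rw [this]
    exact Set.Finite.biUnion (Finset.finite_toSet _) fun k _ => hfin k
  refine (homS_fg deg hT h1 n).of_le ?_
  unfold hom
  rw [Submodule.span_le]
  rintro _ ⟨l, hl, rfl⟩
  exact Submodule.subset_span ⟨l, fun i hi => by
    have := mem_le_degSum deg hi
    exact le_trans this (le_of_eq hl), hl, rfl⟩

theorem pr_evenPart {a : Lam deg} (ha : a ∈ evenPart (hom deg)) {n : ℕ} (hn : ¬ Even n) :
    pr deg n a = 0 := by
  unfold evenPart at ha
  induction ha using Submodule.iSup_induction' with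
  | mem m a ha =>
    rw [pr_hom deg ha, if_neg]
    rintro rfl
    exact hn ⟨m, by ring⟩
  | zero => simp
  | add a b _ _ iha ihb => rw [map_add, iha, ihb, add_zero]

end Anick2
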