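import Pool.Agent.Helper2.GCA.Map

namespace Anick2

attribute [local irreducible] instRingLam

theorem coeff_zero_mul (p q : MvPolynomial (Fin 3) ℚ) :
    MvPolynomial.coeff 0 (p * q) = MvPolynomial.coeff 0 p * MvPolynomial.coeff 0 q := by
  have := map_mul (MvPolynomial.constantCoeff : MvPolynomial (Fin 3) ℚ →+* ℚ) p q
  simpa [MvPolynomial.constantCoeff_eq] using this

theorem coeff_single_mul (p q : MvPolynomial (Fin 3) ℚ) (j : Fin 3)
    (hp : MvPolynomial.coeff 0 p = 0) (hq : MvPolynomial.coeff 0 q = 0) :
    MvPolynomial.coeff (Finsupp.single j 1) (p * q) = 0 := by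
  rw [MvPolynomial.coeff_mul, Finsupp.antidiagonal_single]
  simp [Finset.Nat.antidiagonal_succ, hp, hq]

theorem low_vanish (γ : ℕ → ℕ → MM) {N : ℕ} (hN : 3 ≤ N) {a : BL} (ha : a ∈ hom gdeg N) :
    MvPolynomial.coeff 0 ((phi γ a).f.coeff 0) = 0 ∧
    ∀ j, MvPolynomial.coeff (Finsupp.single j 1) ((phi γ a).f.coeff 0) = 0 := by
  refine hom_induction gdeg (C := fun a => MvPolynomial.coeff 0 ((phi γ a).f.coeff 0) = 0 ∧
    ∀ j, MvPolynomial.coeff (Finsupp.single j 1) ((phi γ a).f.coeff 0) = 0) (fun l hl => ?_)
    ?_ ?_ ?_ ha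
  · have hg : ∀ i, MvPolynomial.coeff 0 ((bphi γ i).f.coeff 0) = 0 := by
      intro i
      cases i <;> simp [bphi]
    match l, hl with
    | [], hl => simp at hl; omega
    | [i], hl =>
      have hz : (bphi γ i).f.coeff 0 = 0 := by
        cases i with
        | b i => simp [gdeg] at hl; omega
        | y k => simp [bphi]
        | x => simp [bphi]
        | w m j => simp [bphi]
      rw [mon_cons, mon_nil, mul_one, phi_gen, hz]
      simp
    | i :: j :: l, hl =>
      rw [mon_cons, mon_cons, map_mul, map_mul, phi_gen, phi_gen, GG.f_mul, GG.f_mul,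
        Polynomial.mul_coeff_zero, Polynomial.mul_coeff_zero]
      have h2 : MvPolynomial.coeff 0 ((bphi γ j).f.coeff 0 * (phi γ (mon gdeg l)).f.coeff 0) = 0 := by
        rw [coeff_zero_mul, hg, zero_mul]
      refine ⟨by rw [coeff_zero_mul, hg, zero_mul], fun k => coeff_single_mul _ _ k (hg i) h2⟩
  · rw [map_zero]; simp
  · rintro a b ⟨h1, h2⟩ ⟨h3, h4⟩
    rw [map_add]
    refine ⟨by simp [h1, h3], fun j => by simp [h2, h4]⟩
  · rintro r a ⟨h1, h2⟩
    rw [map_smul]
    refine ⟨by simp [h1], fun j => by simp [h2]⟩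

section tower
variable (f : ℕ → XX) (hf : ∀ n, PT n f (f n))

/-- Two maps with the same values on the active generators of a stage agree on the stage. -/
theorem phi_congr (γ γ' : ℕ → ℕ → MM) (n : ℕ) (h : ∀ k < n, γ k = γ' k) {N : ℕ} {a : BL}
    (ha : a ∈ homS gdeg (act (RR (tr n f))) N) : phi γ a = phi γ' a := by
  refine homS_induction gdeg (C := fun a => phi γ a = phi γ' a) (fun l hl hn => ?_)
    (by rw [map_zero, map_zero])
    (fun a b ha hb => by rw [map_add, map_add, ha, hb])
    (fun r a ha => by rw [map_smul, map_smul, ha]) ha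
  clear hn
  induction l with
  | nil => rw [mon_nil, map_one, map_one]
  | cons i l ih =>
    rw [mon_cons, map_mul, map_mul, phi_gen, phi_gen, ih (fun j hj => hl j (by simp [hj]))]
    congr 1
    have hi := hl i (by simp)
    cases i with
    | b i => rfl
    | y k => rfl
    | x => rfl
    | w m j =>
      have hj : j < RR (tr n f) m := hi m j rfl
      have hm : m < n := by
        by_contra hcon
        simp [RR, tr, hcon] at hj
      simp [bphi, h m hm]

include hf in
/-- Every odd tower extension maps to the obstruction algebra. -/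
theorem exists_gamma : ∃ γ : ℕ → ℕ → MM, ∀ n j, kap (γ n j) = (phi γ ((f n).2 j)).f := by
  obtain ⟨γ, hγ⟩ := exists_rec (X := ℕ → MM) (fun _ => 0)
    (fun n g s => (∃ s' : ℕ → MM, ∀ j, kap (s' j) = (phi g ((f n).2 j)).f) →
      ∀ j, kap (s j) = (phi g ((f n).2 j)).f) (by
    intro n g
    by_cases h : ∃ s' : ℕ → MM, ∀ j, kap (s' j) = (phi g ((f n).2 j)).f
    · obtain ⟨s', hs'⟩ := h
      exact ⟨s', fun _ => hs'⟩
    · exact ⟨fun _ => 0, fun h' => absurd h' h⟩)
  refine ⟨γ, fun n => ?_⟩
  induction n using Nat.strong_induction_on with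
  | _ n ih =>
    have hcongr : ∀ j, phi (fun k => if k < n then γ k else fun _ => 0) ((f n).2 j) =
        phi γ ((f n).2 j) := fun j =>
      phi_congr f _ _ n (fun k hk => by simp [hk]) (f_mem f hf n j)
    have hγn := hγ n
    simp only [hcongr] at hγn
    refine hγn ?_
    have hex : ∀ j, ∃ s : MM, kap s = (phi γ ((f n).2 j)).f := by
      intro j
      have hmem := f_mem f hf n j
      have hchain : phi γ (dF (FF f) ((f n).2 j)) = dG (phi γ ((f n).2 j)) := by
        refine phi_chain γ (FF f) (act (RR (tr n f))) ?_ hmem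
        intro i hi
        cases i with
        | b i => exact phi_base γ _ _ (by intro m j h; cases h)
        | y k => exact phi_base γ _ _ (by intro m j h; cases h)
        | x => exact phi_base γ _ _ (by intro m j h; cases h)
        | w m j =>
          have hj : j < RR (tr n f) m := hi m j rfl
          have hm : m < n := by
            by_contra hcon
            simp [RR, tr, hcon] at hj
          rw [DF_w f hf]
          ext
          · rw [dG_f, ← ih m hm j]
            rfl
          · rw [dG_s]
            have e := snd_even γ (m + 3) (a := (f m).2 j)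
              (by have := homS_le gdeg _ _ (f_mem f hf m j); rwa [show 2 * (m + 3) = 2 * m + 6 by ring])
            rw [e]
            simp [bphi]
      rw [dF_f f hf, map_zero] at hchain
      have hs := congrArg GG.s hchain
      rw [dG_s, GG.s_zero] at hs
      have hlow := low_vanish γ (N := 2 * n + 6) (by omega) (homS_le gdeg _ _ hmem)
      exact exists_kap _ hs.symm hlow.1 hlow.2
    choose s hs using hex
    exact ⟨s, hs⟩

/-- The evaluation `b ↦ 0, x ↦ 1` on `ℚ[b₁,b₂,b₃][x]`. -/
noncomputable def e1 : PP →+* ℚ := Polynomial.eval₂RingHom MvPolynomial.constantCoeff 1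

theorem e1_kap (n : MM) : e1 (kap n) = 0 := by
  obtain ⟨v, rfl⟩ := B1.mkQ_surjective n
  rw [kap_mk]
  have : kap0 v = ∑ k, v k * Qd k := by simp [kap0]
  rw [this, map_sum]
  refine Finset.sum_eq_zero fun k _ => ?_
  rw [map_mul]
  have : e1 (Qd k) = 0 := by simp [e1, Qd, quad]
  rw [this, mul_zero]

include hf in
/-- The augmentation of the tower at the point `b = 0`, `x = 1`. -/
theorem exists_aug : ∃ E : BL →ₐ[ℚ] ℚ, E (gen gdeg .x) = 1 ∧ (∀ i, gdeg i < 4 → E (gen gdeg i) = 0) ∧
    ∀ u, E (dF (FF f) u) = 0 := by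
  obtain ⟨γ, hγ⟩ := exists_gamma f hf
  have hchain : ∀ a, phi γ (dF (FF f) a) = dG (phi γ a) := by
    refine phi_chain' γ (FF f) fun i => ?_
    cases i with
    | b i => exact phi_base γ _ _ (by intro m j h; cases h)
    | y k => exact phi_base γ _ _ (by intro m j h; cases h)
    | x => exact phi_base γ _ _ (by intro m j h; cases h)
    | w m j =>
      rw [DF_w f hf]
      ext
      · rw [dG_f, ← hγ m j]
        rfl
      · rw [dG_s]
        have e := snd_even γ (m + 3) (a := (f m).2 j)
          (by have := homS_le gdeg _ _ (f_mem f hf m j); rwa [show 2 * (m + 3) = 2 * m + 6 by ring])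
        rw [e]
        simp [bphi]
  let E0 : GG →+* ℚ :=
    { toFun := fun a => e1 a.f
      map_one' := by simp
      map_mul' := fun a b => by simp
      map_zero' := by simp
      map_add' := fun a b => by simp }
  let E : BL →+* ℚ := E0.comp (phi γ : BL →+* GG)
  have hE : ∀ a, E a = e1 (phi γ a).f := fun a => rfl
  refine ⟨E.toRatAlgHom, ?_, ?_, ?_⟩
  · change E (gen gdeg .x) = 1
    rw [hE, phi_gen]
    simp [bphi, e1]
  · intro i hi
    change E (gen gdeg i) = 0
    rw [hE, phi_gen]
    cases i with
    | b i => simp [bphi, e1]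
    | y k => simp [bphi]
    | x => simp [gdeg] at hi
    | w m j => simp [bphi]
  · intro u
    change E (dF (FF f) u) = 0
    rw [hE, hchain, dG_f, e1_kap]

end tower

end Anick2
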