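import Mathlib

/-!
Definitions for the statement: the free graded-commutative algebra `ΛV`, minimal Sullivan algebras,
finiteness of the even cohomology, nilpotent classes.
-/

namespace Anick2

section general
variable {A : Type} [Ring A] [Algebra ℚ A] {ι : Type}

/-- `d` is a differential on the graded algebra `A` with homogeneous components `H n = A^n`:
it has degree `+1`, satisfies the graded Leibniz rule and `d ∘ d = 0`. -/
structure IsDifferential (H : ℕ → Submodule ℚ A) (d : A →ₗ[ℚ] A) : Prop where
  map_hom : ∀ n, ∀ a ∈ H n, d a ∈ H (n + 1)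
  leibniz : ∀ n, ∀ a ∈ H n, ∀ b, d (a * b) = d a * b + (-1 : ℚ) ^ n • (a * d b)
  d_d : ∀ a, d (d a) = 0

/-- The Sullivan condition: `d v_i` lies in the subalgebra generated by the `v_j` with
`deg j < deg i`. -/
def SullivanCondition (deg : ι → ℕ) (v : ι → A) (d : A →ₗ[ℚ] A) : Prop :=
  ∀ i, d (v i) ∈ Algebra.adjoin ℚ (v '' {j | deg j < deg i})

/-- Minimality: `d v_i` is a linear combination of products of at least two of the `v_j`. -/
def Minimality (v : ι → A) (d : A →ₗ[ℚ] A) : Prop :=
  ∀ i, d (v i) ∈ Submodule.span ℚ {a | ∃ l : List ι, 2 ≤ l.length ∧ a = (l.map v).prod}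

/-- The even part `⨁_n A^{2n}` of a graded algebra with homogeneous components `H n = A^n`. -/
noncomputable def evenPart (H : ℕ → Submodule ℚ A) : Submodule ℚ A := ⨆ n : ℕ, H (2 * n)

/-- The even cocycles. -/
noncomputable def evenCocycles (H : ℕ → Submodule ℚ A) (d : A →ₗ[ℚ] A) : Submodule ℚ A :=
  LinearMap.ker d ⊓ evenPart H

/-- The even cohomology (even cocycles modulo boundaries) is finite-dimensional. -/
def EvenCohomologyFinite (H : ℕ → Submodule ℚ A) (d : A →ₗ[ℚ] A) : Prop :=
  Module.Finite ℚ (evenCocycles H d ⧸ (LinearMap.range d).comap (evenCocycles H d).subtype)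

/-- The (two-sided) ideal generated by a set. -/
noncomputable def idealSpan (s : Set A) : Submodule ℚ A :=
  Submodule.span ℚ {a | ∃ p v q, v ∈ s ∧ a = p * v * q}

/-- Some power of `v` is a boundary modulo the ideal generated by `s`, that is, the class of `v` in
`H(A / (s), d̄)` is nilpotent. -/
def IsNilpotentMod (d : A →ₗ[ℚ] A) (s : Set A) (v : A) : Prop :=
  ∃ (N : ℕ) (u : A), v ^ N - d u ∈ idealSpan s

end general

section GCA
variable {ι : Type} (deg : ι → ℕ)

/-- The graded-commutativity relations `v_i v_j = (-1)^(|v_i||v_j|) v_j v_i`. -/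
inductive Rel : FreeAlgebra ℚ ι → FreeAlgebra ℚ ι → Prop
  | comm (i j : ι) : Rel (FreeAlgebra.ι ℚ i * FreeAlgebra.ι ℚ j)
      ((-1 : ℚ) ^ (deg i * deg j) • (FreeAlgebra.ι ℚ j * FreeAlgebra.ι ℚ i))

/-- The free graded-commutative `ℚ`-algebra `ΛV` on a graded vector space `V` with homogeneous
basis `(v_i)_{i ∈ ι}`, `|v_i| = deg i`. -/
def Lam : Type := RingQuot (Rel deg)

noncomputable instance instRingLam : Ring (Lam deg) := RingQuot.instRing (Rel deg)
noncomputable instance instAlgebraLam : Algebra ℚ (Lam deg) := RingQuot.instAlgebra (Rel deg)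

/-- The quotient map from the free associative algebra. -/
noncomputable def Lam.mk : FreeAlgebra ℚ ι →ₐ[ℚ] Lam deg := RingQuot.mkAlgHom ℚ (Rel deg)

/-- The generator `v_i` of `ΛV`. -/
noncomputable def gen (i : ι) : Lam deg := Lam.mk deg (FreeAlgebra.ι ℚ i)

/-- The monomial `v_{i_1} ⋯ v_{i_r}`. -/
noncomputable def mon (l : List ι) : Lam deg := (l.map (gen deg)).prod

/-- The total degree of a monomial. -/
def degSum (l : List ι) : ℕ := (l.map deg).sum

/-- The homogeneous component of degree `n` of `ΛV`: the span of the monomials of total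
degree `n`. -/
noncomputable def hom (n : ℕ) : Submodule ℚ (Lam deg) :=
  Submodule.span ℚ {a | ∃ l : List ι, degSum deg l = n ∧ a = mon deg l}

/-- A minimal Sullivan algebra `(ΛV, d)` with `V = V^{≥ 2}` (in particular `V^1 = 0`), `V` having
the homogeneous basis `(v_i)_{i ∈ ι}`, `|v_i| = deg i`. -/
structure MinimalSullivan where
  two_le : ∀ i, 2 ≤ deg i
  d : Lam deg →ₗ[ℚ] Lam deg
  isDifferential : IsDifferential (hom deg) d
  sullivan : SullivanCondition deg (gen deg) d
  minimal : Minimality (gen deg) d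

variable {deg}

/-- `H^even(ΛV, d)` is finite-dimensional. -/
def MinimalSullivan.EvenFinite (S : MinimalSullivan deg) : Prop :=
  EvenCohomologyFinite (hom deg) S.d

/-- The class of `v_i` is nilpotent in `H(ΛV^{≥ deg v_i}, d̄)`, where `ΛV^{≥ k}` is the quotient of
`ΛV` by the ideal generated by `V^{< k}`. -/
def MinimalSullivan.IsNilpotentClass (S : MinimalSullivan deg) (i : ι) : Prop :=
  IsNilpotentMod S.d (gen deg '' {j | deg j < deg i}) (gen deg i)

end GCA

end Anick2
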