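import Pool.Agent.Helper2.GCA.Defs
import Pool.Agent.Helper2.GCA.Ext

namespace Anick2

attribute [local irreducible] instRingLam

section tower
variable (f : ℕ → XX) (hf : ∀ n, PT n f (f n))

/-- Active generators. -/
abbrev SS : Set Gen := act (RR f)

abbrev sdeg : SS f → ℕ := fun i => gdeg i

noncomputable def sd : Lam (sdeg f) →ₗ[ℚ] Lam (sdeg f) :=
  derS gdeg (SS f) (DF (FF f)) (fun i _ => hDS f hf i)

theorem incl_sd (a : Lam (sdeg f)) :
    incl gdeg (SS f) (sd f hf a) = dF (FF f) (incl gdeg (SS f) a) :=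
  incl_derS gdeg (SS f) (DF (FF f)) (hDF (FF f)) (fun i _ => hDS f hf i) a

theorem sd_pr (n : ℕ) (a : Lam (sdeg f)) : sd f hf (pr (sdeg f) n a) = pr (sdeg f) (n + 1) (sd f hf a) :=
  der_pr _ _ _ n a

theorem sfin (n : ℕ) : {i : SS f | sdeg f i = n}.Finite := by
  have hfin : (act (RR (tr n f))).Finite := act_finite _ n (by
    intro k hk; simp [RR, tr, not_lt.mpr hk])
  have : (Subtype.val '' {i : SS f | sdeg f i = n}).Finite := by
    refine hfin.subset ?_
    rintro _ ⟨⟨i, hi⟩, hin, rfl⟩
    intro m j h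
    have hj := hi m j h
    change gdeg i = n at hin
    simp only at h
    rw [h] at hin
    have hm : m < n := by simp only [gdeg] at hin; omega
    simpa [RR, tr, hm] using hj
  exact Set.Finite.of_finite_image this Subtype.val_injective.injOn

theorem s_exact (n : ℕ) {z : Lam (sdeg f)} (hz : z ∈ hom (sdeg f) (2 * n + 6))
    (hd : sd f hf z = 0) : ∃ u, sd f hf u = z := by
  have h1 := incl_mem gdeg (SS f) hz
  have h2 : dF (FF f) (incl gdeg (SS f) z) = 0 := by rw [← incl_sd f hf, hd, map_zero]
  obtain ⟨u, hu, hu'⟩ := exact_even f hf n h1 h2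
  obtain ⟨u', _, rfl⟩ := homS_eq_incl gdeg (SS f) hu
  refine ⟨u', incl_injective gdeg (SS f) ?_⟩
  rw [incl_sd, hu']

theorem s_finite : EvenCohomologyFinite (hom (sdeg f)) (sd f hf) := by
  unfold EvenCohomologyFinite
  have hfg : ∀ n, (hom (sdeg f) n).FG := hom_fg (sdeg f) (sfin f) (fun i => gdeg_pos i)
  let K : Submodule ℚ (Lam (sdeg f)) := (hom (sdeg f) 0 ⊔ hom (sdeg f) 2 ⊔ hom (sdeg f) 4) ⊓
    evenCocycles (hom (sdeg f)) (sd f hf)
  have hK : K.FG := (((hfg 0).sup (hfg 2)).sup (hfg 4)).of_le inf_le_left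
  have hKfin : Module.Finite ℚ K := Module.Finite.iff_fg.mpr hK
  let T : K →ₗ[ℚ] (evenCocycles (hom (sdeg f)) (sd f hf) ⧸
      (LinearMap.range (sd f hf)).comap (evenCocycles (hom (sdeg f)) (sd f hf)).subtype) :=
    (Submodule.mkQ _).comp (Submodule.inclusion (inf_le_right : K ≤ evenCocycles (hom (sdeg f)) (sd f hf)))
  refine Module.Finite.of_surjective T ?_
  intro c
  obtain ⟨⟨z, hz⟩, rfl⟩ := Submodule.mkQ_surjective _ c
  obtain ⟨hz1, hz2⟩ := hz
  have hz1' : sd f hf z = 0 := hz1
  have hcl : ∀ n, sd f hf (pr (sdeg f) n z) = 0 := by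
    intro n; rw [sd_pr, hz1', map_zero]
  have hevp : ∀ n, Even n → pr (sdeg f) n z ∈ evenPart (hom (sdeg f)) := by
    rintro n ⟨m, rfl⟩
    have := pr_mem (sdeg f) (m + m) z
    rw [← two_mul] at this
    unfold evenPart
    exact Submodule.mem_iSup_of_mem m (by rw [← two_mul]; exact this)
  let k : Lam (sdeg f) := pr (sdeg f) 0 z + pr (sdeg f) 2 z + pr (sdeg f) 4 z
  have hk : k ∈ K := by
    refine ⟨?_, ?_, ?_⟩
    · refine add_mem (add_mem ?_ ?_) ?_
      · exact Submodule.mem_sup_left (Submodule.mem_sup_left (pr_mem _ _ _))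
      · exact Submodule.mem_sup_left (Submodule.mem_sup_right (pr_mem _ _ _))
      · exact Submodule.mem_sup_right (pr_mem _ _ _)
    · change sd f hf k = 0
      simp only [k, map_add, hcl, add_zero]
    · exact add_mem (add_mem (hevp 0 (by decide)) (hevp 2 (by decide))) (hevp 4 (by decide))
  refine ⟨⟨k, hk⟩, ?_⟩
  change Submodule.mkQ _ _ = Submodule.mkQ _ _
  rw [← sub_eq_zero, ← map_sub, Submodule.mkQ_apply, Submodule.Quotient.mk_eq_zero,
    Submodule.mem_comap]
  change k - z ∈ LinearMap.range (sd f hf)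
  obtain ⟨N, hN⟩ := sum_pr (sdeg f) z
  have hsum := hN (N + 5) (by omega)
  have hz' : z = k + ∑ n ∈ (Finset.range (N + 5)) \ {0, 2, 4}, pr (sdeg f) n z := by
    have hsub : ({0, 2, 4} : Finset ℕ) ⊆ Finset.range (N + 5) := by
      intro i hi
      simp only [Finset.mem_insert, Finset.mem_singleton] at hi
      rw [Finset.mem_range]; omega
    have h3 : ∑ n ∈ ({0, 2, 4} : Finset ℕ), pr (sdeg f) n z = k := by simp [k, add_assoc]
    have h4 := Finset.sum_sdiff (f := fun n => pr (sdeg f) n z) hsub
    rw [h3, ← hsum] at h4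
    rw [add_comm]
    exact h4.symm
  have hrest : ∑ n ∈ (Finset.range (N + 5)) \ {0, 2, 4}, pr (sdeg f) n z ∈
      LinearMap.range (sd f hf) := by
    refine Submodule.sum_mem _ fun n hn => ?_
    simp only [Finset.mem_sdiff, Finset.mem_insert, Finset.mem_singleton, not_or] at hn
    by_cases hev : Even n
    · obtain ⟨m, rfl⟩ := hev
      obtain ⟨m', rfl⟩ : ∃ m', m = m' + 3 := ⟨m - 3, by omega⟩
      have h1 := pr_mem (sdeg f) (m' + 3 + (m' + 3)) z
      rw [show m' + 3 + (m' + 3) = 2 * m' + 6 by ring] at h1 ⊢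
      obtain ⟨u, hu⟩ := s_exact f hf m' h1 (hcl _)
      exact ⟨u, hu⟩
    · rw [pr_evenPart (sdeg f) hz2 hev]
      exact zero_mem _
  have : k - z = -∑ n ∈ (Finset.range (N + 5)) \ {0, 2, 4}, pr (sdeg f) n z := by
    nth_rewrite 1 [hz']
    abel
  rw [this]
  exact neg_mem hrest

theorem s_not_nilp : ¬ IsNilpotentMod (sd f hf)
    (gen (sdeg f) '' {j | sdeg f j < sdeg f ⟨Gen.x, mem_act_x _⟩})
    (gen (sdeg f) ⟨Gen.x, mem_act_x _⟩) := by
  rintro ⟨N, u, hu⟩
  obtain ⟨E, hx, hlow, hE⟩ := exists_aug f hf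
  let E' : Lam (sdeg f) →ₐ[ℚ] ℚ := E.comp (incl gdeg (SS f))
  have h1 : E' (gen (sdeg f) ⟨Gen.x, mem_act_x _⟩) = 1 := by
    change E (incl gdeg (SS f) (gen _ _)) = 1
    rw [incl_gen]; exact hx
  have h2 : E' (sd f hf u) = 0 := by
    change E (incl gdeg (SS f) (sd f hf u)) = 0
    rw [incl_sd, hE]
  have h3 : ∀ a ∈ idealSpan (gen (sdeg f) '' {j | sdeg f j < sdeg f ⟨Gen.x, mem_act_x _⟩}),
      E' a = 0 := by
    intro a ha
    unfold idealSpan at ha
    induction ha using Submodule.span_induction with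
    | mem a ha =>
      obtain ⟨p, _, q, ⟨j, hj, rfl⟩, rfl⟩ := ha
      have : E' (gen (sdeg f) j) = 0 := by
        change E (incl gdeg (SS f) (gen _ _)) = 0
        rw [incl_gen]; exact hlow _ hj
      rw [map_mul, map_mul, this, mul_zero, zero_mul]
    | zero => simp
    | add a b _ _ iha ihb => rw [map_add, iha, ihb, add_zero]
    | smul r a _ iha => rw [map_smul, iha, smul_zero]
  have h4 := h3 _ hu
  rw [map_sub, map_pow, h1, h2] at h4
  simp at h4

theorem mon_mem_adjoin {ι : Type} (deg : ι → ℕ) (T : Set ι) (l : List ι) (hl : ∀ i ∈ l, i ∈ T) :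
    mon deg l ∈ Algebra.adjoin ℚ (gen deg '' T) := by
  induction l with
  | nil => exact one_mem _
  | cons i l ih =>
    rw [mon_cons]
    exact mul_mem (Algebra.subset_adjoin ⟨i, hl i (by simp), rfl⟩)
      (ih (fun j hj => hl j (by simp [hj])))

include hf in
/-- The differential of each generator, as a combination of monomials of length at least two in
generators of smaller degree. -/
theorem DF_good (i : Gen) : ∀ C : Submodule ℚ BL,
    (∀ l : List Gen, (∀ j ∈ l, j ∈ act (RR f) ∧ gdeg j < gdeg i) → 2 ≤ l.length → mon gdeg l ∈ C) →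
    DF (FF f) i ∈ C := by
  intro C hC
  cases i with
  | b i => exact zero_mem _
  | y k =>
    have := hC [.b (qa k), .b (qb k)] (by
      intro j hj
      simp only [List.mem_cons, List.not_mem_nil, or_false] at hj
      rcases hj with rfl | rfl <;> exact ⟨mem_act_b _ _, by simp [gdeg]⟩) (by simp)
    simpa [DF] using this
  | x =>
    have key : ∀ (i : Fin 3) (k : Fin 6), gen gdeg (.b i) * gen gdeg (.y k) ∈ C := by
      intro i k
      have := hC [.b i, .y k] (by
        intro j hj
        simp only [List.mem_cons, List.not_mem_nil, or_false] at hj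
        rcases hj with rfl | rfl
        · exact ⟨mem_act_b _ _, by simp [gdeg]⟩
        · exact ⟨mem_act_y _ _, by simp [gdeg]⟩) (by simp)
      simpa using this
    exact sub_mem (add_mem (key _ _) (key _ _)) (Submodule.smul_mem _ _ (key _ _))
  | w m j =>
    rw [DF_w f hf]
    have hmem := f_mem f hf m j
    refine homS_induction gdeg (C := fun a => a ∈ C) (fun l hl hn => ?_) (zero_mem _)
      (fun a b ha hb => add_mem ha hb) (fun r a ha => Submodule.smul_mem _ _ ha) hmem
    refine hC l (fun i hi => ⟨act_mono f m (hl i hi), ?_⟩) ?_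
    · have := hl i hi
      cases i with
      | b i => simp [gdeg]
      | y k => simp [gdeg]
      | x => simp [gdeg]
      | w m' j' =>
        have hj : j' < RR (tr m f) m' := this m' j' rfl
        have hm : m' < m := by
          by_contra hcon
          simp [RR, tr, hcon] at hj
        simp only [gdeg]
        omega
    · match l, hl, hn with
      | [], _, hn => simp at hn
      | [i], hl, hn =>
        exfalso
        simp only [degSum_cons, degSum_nil, add_zero] at hn
        cases i with
        | b i => simp only [gdeg] at hn; omega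
        | y k => simp only [gdeg] at hn; omega
        | x => simp only [gdeg] at hn; omega
        | w m' j' => simp only [gdeg] at hn; omega
      | i :: j :: l, _, _ => simp

/-- The minimal Sullivan algebra of the tower. -/
noncomputable def sS : MinimalSullivan (sdeg f) where
  two_le i := gdeg_two i
  d := sd f hf
  isDifferential :=
    { map_hom := fun n a ha => der_mem _ _ _ ha
      leibniz := fun n a ha b => der_leibniz _ _ _ ha b
      d_d := fun a => by
        apply incl_injective gdeg (SS f)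
        rw [incl_sd, incl_sd, dF_sq f hf, map_zero] }
  sullivan i := by
    have h0 : sd f hf (gen _ i) = retr gdeg (SS f) (DF (FF f) i) := derS_gen _ _ _ _ i
    rw [h0]
    let A : Subalgebra ℚ (Lam (sdeg f)) :=
      Algebra.adjoin ℚ (gen (sdeg f) '' {j | sdeg f j < sdeg f i})
    have := DF_good f hf i (A.comap (retr gdeg (SS f))).toSubmodule (by
      intro l hl _
      have hl' : ∀ j ∈ l, j ∈ SS f := fun j hj => (hl j hj).1
      change retr gdeg (SS f) (mon gdeg l) ∈ A
      lift l to List (SS f) using hl'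
      rw [← incl_mon, retr_incl]
      refine mon_mem_adjoin _ _ _ fun j hj => ?_
      exact (hl j.1 (List.mem_map_of_mem hj)).2)
    exact this
  minimal i := by
    have h0 : sd f hf (gen _ i) = retr gdeg (SS f) (DF (FF f) i) := derS_gen _ _ _ _ i
    rw [h0]
    have := DF_good f hf i ((Submodule.span ℚ
      {a | ∃ l : List (SS f), 2 ≤ l.length ∧ a = mon (sdeg f) l}).comap
        (retr gdeg (SS f)).toLinearMap) (by
      intro l hl hlen
      have hl' : ∀ j ∈ l, j ∈ SS f := fun j hj => (hl j hj).1
      change retr gdeg (SS f) (mon gdeg l) ∈ Submodule.span ℚ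
        {a | ∃ l : List (SS f), 2 ≤ l.length ∧ a = mon (sdeg f) l}
      lift l to List (SS f) using hl'
      rw [← incl_mon, retr_incl]
      exact Submodule.subset_span ⟨l, by simpa using hlen, rfl⟩)
    exact this

theorem s_even : {i : SS f | Even (sdeg f i)}.ncard = 4 := by
  have : {i : SS f | Even (sdeg f i)} =
      Set.range (fun k : Option (Fin 3) => (k.elim ⟨Gen.x, mem_act_x _⟩
        (fun i => ⟨Gen.b i, mem_act_b _ i⟩) : SS f)) := by
    ext ⟨i, hi⟩
    constructor
    · intro h
      change Even (gdeg i) at h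
      cases i with
      | b i => exact ⟨some i, rfl⟩
      | y k =>
        have h3 : Even 3 := h
        exact absurd h3 (by decide)
      | x => exact ⟨none, rfl⟩
      | w m j =>
        exfalso
        obtain ⟨c, hc⟩ := h
        simp only [gdeg] at hc
        omega
    · rintro ⟨k, hk⟩
      change Even (gdeg i)
      cases k with
      | none =>
        have : Gen.x = i := congrArg Subtype.val hk
        rw [← this]; decide
      | some k =>
        have : Gen.b k = i := congrArg Subtype.val hk
        rw [← this]; exact ⟨1, rfl⟩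
  rw [this, ← Set.image_univ, Set.ncard_image_of_injective, Set.ncard_univ]
  · simp
  · intro a b h
    have h' := congrArg Subtype.val h
    cases a <;> cases b <;> simp_all

end tower

theorem fjm_fails : ∃ (ι : Type) (deg : ι → ℕ) (S : MinimalSullivan deg),
    (∀ n, {i | deg i = n}.Finite) ∧ {i | Even (deg i)}.ncard = 4 ∧
    S.EvenFinite ∧ ∃ i, ¬ S.IsNilpotentClass i := by
  obtain ⟨f, hf⟩ := exists_tower
  exact ⟨SS f, sdeg f, sS f hf, sfin f, s_even f, s_finite f hf,
    ⟨Gen.x, mem_act_x _⟩, s_not_nilp f hf⟩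

end Anick2
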