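import Pool.Agent.Helper2.GCA.Tower

namespace Anick2

attribute [local irreducible] instRingLam

/-- Values of the map to the obstruction algebra on generators. -/
noncomputable def bphi (γ : ℕ → ℕ → MM) : Gen → GG
  | .b i => gmk (Polynomial.C (MvPolynomial.X i)) 0
  | .y k => gmk 0 (B1.mkQ (Pi.single k 1))
  | .x => gmk Polynomial.X 0
  | .w m j => gmk 0 (γ m j)

theorem bphi_parity (γ : ℕ → ℕ → MM) (i : Gen) :
    (Even (gdeg i) ∧ (bphi γ i).s = 0) ∨ (Odd (gdeg i) ∧ (bphi γ i).f = 0) := by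
  cases i with
  | b i => left; exact ⟨⟨1, rfl⟩, by simp [bphi]⟩
  | y k => right; exact ⟨⟨1, rfl⟩, by simp [bphi]⟩
  | x => left; exact ⟨⟨2, rfl⟩, by simp [bphi]⟩
  | w m j => right; exact ⟨⟨m + 2, by simp [gdeg]; ring⟩, by simp [bphi]⟩

theorem bphi_comm (γ : ℕ → ℕ → MM) (i j : Gen) :
    bphi γ i * bphi γ j = (-1 : ℚ) ^ (gdeg i * gdeg j) • (bphi γ j * bphi γ i) := by
  rcases bphi_parity γ i with ⟨hi, hi'⟩ | ⟨hi, hi'⟩
  · rw [(hi.mul_right _).neg_one_pow, one_smul, mul_comm]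
  · rcases bphi_parity γ j with ⟨hj, hj'⟩ | ⟨hj, hj'⟩
    · rw [(hj.mul_left _).neg_one_pow, one_smul, mul_comm]
    · have e1 : bphi γ i * bphi γ j = 0 := by
        ext <;> simp [hi', hj']
      have e2 : bphi γ j * bphi γ i = 0 := by rw [mul_comm, e1]
      rw [e1, e2, smul_zero]

/-- The map to the obstruction algebra. -/
noncomputable def phi (γ : ℕ → ℕ → MM) : BL →ₐ[ℚ] GG := Lam.lift gdeg (bphi γ) (bphi_comm γ)

theorem phi_gen (γ : ℕ → ℕ → MM) (i : Gen) : phi γ (gen gdeg i) = bphi γ i := by simp [phi]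

theorem sG_mul (a b : GG) : sG (a * b) = sG a * sG b := by
  ext
  · simp [sG]
  · simp [sG, add_comm]

theorem sG_smul (r : ℚ) (a : GG) : sG (r • a) = r • sG a := by
  ext <;> simp [sG]

theorem sG_bphi (γ : ℕ → ℕ → MM) (i : Gen) :
    sG (bphi γ i) = (-1 : ℚ) ^ gdeg i • bphi γ i := by
  rcases bphi_parity γ i with ⟨hi, hi'⟩ | ⟨hi, hi'⟩
  · rw [hi.neg_one_pow, one_smul]
    ext <;> simp [sG, hi']
  · rw [hi.neg_one_pow]
    ext <;> simp [sG, hi']

theorem sG_mon (γ : ℕ → ℕ → MM) (l : List Gen) :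
    sG (phi γ (mon gdeg l)) = (-1 : ℚ) ^ degSum gdeg l • phi γ (mon gdeg l) := by
  induction l with
  | nil => rw [mon_nil, map_one]; ext <;> simp [sG]
  | cons i l ih =>
    rw [mon_cons, map_mul, sG_mul, ih, phi_gen, sG_bphi, smul_mul_smul_comm, degSum_cons, pow_add]

theorem snd_even (γ : ℕ → ℕ → MM) (n : ℕ) {a : BL} (ha : a ∈ hom gdeg (2 * n)) :
    (phi γ a).s = 0 := by
  refine hom_induction gdeg (C := fun a => (phi γ a).s = 0) (fun l hl => ?_)
    (by rw [map_zero, GG.s_zero])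
    (fun a b ha hb => by rw [map_add, GG.s_add, ha, hb, add_zero])
    (fun r a ha => by rw [map_smul, GG.s_smul, ha, smul_zero]) ha
  have h := sG_mon γ l
  rw [hl, Even.neg_one_pow ⟨n, by ring⟩, one_smul] at h
  have h2 := congrArg GG.s h
  rw [sG_s] at h2
  have h3 : (2 : ℚ) • (phi γ (mon gdeg l)).s = 0 := by
    rw [two_smul]
    nth_rewrite 1 [← h2]
    exact neg_add_cancel _
  exact (smul_eq_zero.mp h3).resolve_left (by norm_num)

theorem phi_chain_mon (γ : ℕ → ℕ → MM) (F : ℕ → ℕ → BL) (S : Set Gen)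
    (h : ∀ i ∈ S, phi γ (DF F i) = dG (bphi γ i)) (l : List Gen) (hl : ∀ i ∈ l, i ∈ S) :
    phi γ (dF F (mon gdeg l)) = dG (phi γ (mon gdeg l)) := by
  induction l with
  | nil =>
    have h1 : dG (1 : GG) = 0 := by
      ext
      · simp [dG_f]
      · simp [dG_s]
    have h2 : dF F 1 = 0 := der_one gdeg _ _
    rw [mon_nil, h2, map_zero, map_one (phi γ), h1]
  | cons i l ih =>
    have ih' := ih (fun j hj => hl j (by simp [hj]))
    have e : dF F (gen gdeg i * mon gdeg l) =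
        DF F i * mon gdeg l + sgn gdeg (gen gdeg i) * dF F (mon gdeg l) := by
      unfold dF
      rw [der_mul, der_gen]
    rw [mon_cons, e, map_mul (phi γ) (gen gdeg i), dG_mul, map_add, map_mul, map_mul, ih',
      h i (hl i (by simp)), sgn_gen, map_smul, phi_gen, sG_bphi]

theorem phi_chain (γ : ℕ → ℕ → MM) (F : ℕ → ℕ → BL) (S : Set Gen)
    (h : ∀ i ∈ S, phi γ (DF F i) = dG (bphi γ i)) {n : ℕ} {a : BL} (ha : a ∈ homS gdeg S n) :
    phi γ (dF F a) = dG (phi γ a) := by
  refine homS_induction gdeg (C := fun a => phi γ (dF F a) = dG (phi γ a))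
    (fun l hl _ => phi_chain_mon γ F S h l hl) (by simp only [map_zero])
    (fun a b ha hb => by rw [map_add, map_add, map_add, map_add, ha, hb])
    (fun r a ha => by rw [map_smul, map_smul, map_smul, map_smul, ha]) ha

theorem phi_chain' (γ : ℕ → ℕ → MM) (F : ℕ → ℕ → BL)
    (h : ∀ i, phi γ (DF F i) = dG (bphi γ i)) (a : BL) :
    phi γ (dF F a) = dG (phi γ a) := by
  induction a using Lam.induction with
  | hm l => exact phi_chain_mon γ F Set.univ (fun i _ => h i) l (fun i _ => trivial)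
  | h0 => simp only [map_zero]
  | hadd a b ha hb => rw [map_add, map_add, map_add, map_add, ha, hb]
  | hsmul r a ha => rw [map_smul, map_smul, map_smul, map_smul, ha]

theorem phi_base (γ : ℕ → ℕ → MM) (F : ℕ → ℕ → BL) (i : Gen) (hi : ∀ m j, i ≠ .w m j) :
    phi γ (DF F i) = dG (bphi γ i) := by
  cases i with
  | b i =>
    simp only [DF, map_zero]
    ext
    · simp [dG_f, bphi]
    · simp [dG_s, bphi]
  | y k =>
    simp only [DF, map_mul, phi_gen, bphi]
    ext
    · rw [dG_f, gmk_s, kap_mk, kap0_single]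
      simp [Qd, quad]
    · simp [dG_s]
  | x =>
    simp only [DF, map_mul, map_add, map_sub, map_smul, phi_gen, bphi]
    ext
    · simp [dG_f]
    · rw [dG_s]
      simp only [gmk_f, Polynomial.derivative_X, one_smul, om, GG.s_sub, GG.s_add, GG.s_smul,
        GG.s_mul, gmk_s, smul_zero, add_zero]
      have h2 : (2 : ℚ) • ((Polynomial.C (MvPolynomial.X 2) : PP) • B1.mkQ (Pi.single 1 1)) =
          (2 : PP) • ((Polynomial.C (MvPolynomial.X 2) : PP) • B1.mkQ (Pi.single 1 1)) := by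
        rw [two_smul, two_smul]
      rw [h2, ← map_smul, ← map_smul, ← map_smul, ← map_smul, ← map_add, ← map_sub]
      congr 1
      have hC : (2 : PP) = Polynomial.C (MvPolynomial.C (2 : ℚ)) := by
        rw [show (MvPolynomial.C (2 : ℚ) : MvPolynomial (Fin 3) ℚ) = 2 from map_ofNat _ 2]
        exact (map_ofNat _ 2).symm
      funext l
      fin_cases l <;> simp [om0, hC]
  | w m j => exact absurd rfl (hi m j)

end Anick2
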