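import Mathlib

namespace Anick2

/-- The polynomial ring `ℚ[b₁,b₂,b₃][x]`. -/
abbrev PP : Type := Polynomial (MvPolynomial (Fin 3) ℚ)

/-- The index pairs of the six quadrics. -/
def qa : Fin 6 → Fin 3 := ![0, 0, 0, 1, 1, 2]
def qb : Fin 6 → Fin 3 := ![0, 1, 2, 1, 2, 2]

/-- The quadric `b_i b_j`. -/
noncomputable def quad (k : Fin 6) : MvPolynomial (Fin 3) ℚ :=
  MvPolynomial.X (qa k) * MvPolynomial.X (qb k)

noncomputable def Qd (k : Fin 6) : PP := Polynomial.C (quad k)

/-- The boundaries `κ(y_i y_j)`. -/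
noncomputable def B1 : Submodule PP (Fin 6 → PP) :=
  Submodule.span PP (Set.range fun p : Fin 6 × Fin 6 =>
    (Pi.single p.2 (Qd p.1) - Pi.single p.1 (Qd p.2) : Fin 6 → PP))

abbrev MM : Type := (Fin 6 → PP) ⧸ B1

/-- The obstruction algebra: even part `ℚ[b₁,b₂,b₃][x]`, odd part `K_1/κ(K_2)[x]`. -/
def GG : Type := TrivSqZeroExt PP MM

noncomputable instance : CommRing GG := inferInstanceAs (CommRing (TrivSqZeroExt PP MM))
noncomputable instance : Algebra ℚ GG := inferInstanceAs (Algebra ℚ (TrivSqZeroExt PP MM))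

/-- Constructor. -/
def gmk (p : PP) (n : MM) : GG := (p, n)
/-- Even part. -/
def GG.f (a : GG) : PP := Prod.fst a
/-- Odd part. -/
def GG.s (a : GG) : MM := Prod.snd a

@[ext] theorem GG.ext {a b : GG} (h : a.f = b.f) (h' : a.s = b.s) : a = b := Prod.ext h h'
@[simp] theorem gmk_f (p : PP) (n : MM) : (gmk p n).f = p := rfl
@[simp] theorem gmk_s (p : PP) (n : MM) : (gmk p n).s = n := rfl
@[simp] theorem GG.f_add (a b : GG) : (a + b).f = a.f + b.f := rfl
@[simp] theorem GG.s_add (a b : GG) : (a + b).s = a.s + b.s := rfl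
@[simp] theorem GG.f_sub (a b : GG) : (a - b).f = a.f - b.f := rfl
@[simp] theorem GG.s_sub (a b : GG) : (a - b).s = a.s - b.s := rfl
@[simp] theorem GG.f_neg (a : GG) : (-a).f = -a.f := rfl
@[simp] theorem GG.s_neg (a : GG) : (-a).s = -a.s := rfl
@[simp] theorem GG.f_zero : (0 : GG).f = 0 := rfl
@[simp] theorem GG.s_zero : (0 : GG).s = 0 := rfl
@[simp] theorem GG.f_one : (1 : GG).f = 1 := rfl
@[simp] theorem GG.s_one : (1 : GG).s = 0 := rfl
@[simp] theorem GG.f_smul (r : ℚ) (a : GG) : (r • a).f = r • a.f := rfl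
@[simp] theorem GG.s_smul (r : ℚ) (a : GG) : (r • a).s = r • a.s := rfl
@[simp] theorem GG.f_mul (a b : GG) : (a * b).f = a.f * b.f := rfl
@[simp] theorem GG.s_mul (a b : GG) : (a * b).s = a.f • b.s + b.f • a.s := by
  have := TrivSqZeroExt.snd_mul (R := PP) (M := MM) a b
  rw [op_smul_eq_smul] at this
  exact this

/-- The Koszul differential on `K_1`. -/
noncomputable def kap0 : (Fin 6 → PP) →ₗ[PP] PP :=
  ∑ k, (LinearMap.proj k : (Fin 6 → PP) →ₗ[PP] PP).smulRight (Qd k)

theorem kap0_single (k : Fin 6) (p : PP) : kap0 (Pi.single k p) = p * Qd k := by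
  simp [kap0, Pi.single_apply]

theorem B1_le : B1 ≤ LinearMap.ker kap0 := by
  unfold B1
  rw [Submodule.span_le]
  rintro _ ⟨⟨i, j⟩, rfl⟩
  simp only [SetLike.mem_coe, LinearMap.mem_ker, map_sub, kap0_single]
  ring

noncomputable def kap : MM →ₗ[PP] PP := B1.liftQ kap0 B1_le

theorem kap_mk (v : Fin 6 → PP) : kap (B1.mkQ v) = kap0 v := by
  simp [kap]

theorem kap_symm (n n' : MM) : kap n • n' = kap n' • n := by
  obtain ⟨v, rfl⟩ := B1.mkQ_surjective n
  obtain ⟨v', rfl⟩ := B1.mkQ_surjective n'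
  rw [kap_mk, kap_mk]
  have hv : v = ∑ k, v k • Pi.single k (1 : PP) := by
    ext j; simp [Pi.single_apply]
  have hv' : v' = ∑ k, v' k • Pi.single k (1 : PP) := by
    ext j; simp [Pi.single_apply]
  have key : ∀ i j : Fin 6, Qd i • B1.mkQ (Pi.single j (1 : PP)) = Qd j • B1.mkQ (Pi.single i (1 : PP)) := by
    intro i j
    rw [← map_smul, ← map_smul, ← sub_eq_zero, ← map_sub, Submodule.mkQ_apply,
      Submodule.Quotient.mk_eq_zero]
    refine Submodule.subset_span ⟨(i, j), ?_⟩
    ext l
    simp [Pi.single_apply]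
  have h0 : kap0 v = ∑ k, v k * Qd k := by simp [kap0]
  have h0' : kap0 v' = ∑ k, v' k * Qd k := by simp [kap0]
  rw [h0, h0']
  conv_lhs => rw [hv']
  conv_rhs => rw [hv]
  rw [map_sum, map_sum, Finset.sum_smul, Finset.sum_smul]
  simp only [Finset.smul_sum, map_smul]
  rw [Finset.sum_comm]
  refine Finset.sum_congr rfl fun i _ => Finset.sum_congr rfl fun j _ => ?_
  rw [smul_smul, smul_smul, show v j * Qd j * v' i = (v' i * v j) * Qd j by ring,
    show v' i * Qd i * v j = (v' i * v j) * Qd i by ring, mul_smul (v' i * v j) (Qd j),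
    mul_smul (v' i * v j) (Qd i), key]

/-- `ω = b₁ y₂₃ + b₂ y₁₃ - 2 b₃ y₁₂`. -/
noncomputable def om0 : Fin 6 → PP :=
  ![0, Polynomial.C (MvPolynomial.C (-2) * MvPolynomial.X 2), Polynomial.C (MvPolynomial.X 1), 0,
    Polynomial.C (MvPolynomial.X 0), 0]

noncomputable def om : MM := B1.mkQ om0

/-- The differential of `G`. -/
noncomputable def dG : GG →ₗ[ℚ] GG where
  toFun a := gmk (kap a.s) (Polynomial.derivative a.f • om)
  map_add' a b := by
    ext <;> simp [add_smul]
  map_smul' r a := by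
    ext
    · simp
    · simp

theorem dG_f (a : GG) : (dG a).f = kap a.s := rfl
theorem dG_s (a : GG) : (dG a).s = Polynomial.derivative a.f • om := rfl

/-- sign involution on `G` -/
noncomputable def sG (a : GG) : GG := gmk a.f (-a.s)

theorem sG_f (a : GG) : (sG a).f = a.f := rfl
theorem sG_s (a : GG) : (sG a).s = -a.s := rfl

theorem dG_mul (a b : GG) : dG (a * b) = dG a * b + sG a * dG b := by
  ext
  · simp only [dG_f, sG_f, GG.s_mul, GG.f_add, GG.f_mul, map_add, map_smul, smul_eq_mul]
    rw [mul_comm b.f, add_comm]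
  · simp only [dG_s, dG_f, sG_f, sG_s, GG.s_add, GG.s_mul, GG.f_mul, Polynomial.derivative_mul,
      smul_neg]
    rw [kap_symm a.s b.s]
    module

/-! ### the key computation: closed even elements of `G` -/

open MvPolynomial in
/-- An element of `ℚ[b₁,b₂,b₃]` without constant and linear terms is a combination of the quadrics. -/
theorem exists_quad (F : MvPolynomial (Fin 3) ℚ) (h0 : coeff 0 F = 0)
    (h1 : ∀ j, coeff (Finsupp.single j 1) F = 0) : ∃ g : Fin 6 → MvPolynomial (Fin 3) ℚ,
    F = ∑ k, g k * quad k := by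
  have hmem : F ∈ Ideal.span ((fun s => monomial s (1 : ℚ)) ''
      (Set.range fun k : Fin 6 => (Finsupp.single (qa k) 1 + Finsupp.single (qb k) 1 : Fin 3 →₀ ℕ))) := by
    rw [MvPolynomial.mem_ideal_span_monomial_image]
    intro s hs
    have hs0 : s ≠ 0 := by rintro rfl; exact (mem_support_iff.mp hs) h0
    have hs1 : ∀ j, s ≠ Finsupp.single j 1 := by
      rintro j rfl; exact (mem_support_iff.mp hs) (h1 j)
    have key : ∃ k : Fin 6, ∀ i : Fin 3, (Finsupp.single (qa k) 1 + Finsupp.single (qb k) 1 : Fin 3 →₀ ℕ) i ≤ s i := by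
      by_contra hcon
      push Not at hcon
      have c0 := hcon 0
      have c1 := hcon 1
      have c2 := hcon 2
      have c3 := hcon 3
      have c4 := hcon 4
      have c5 := hcon 5
      simp only [qa, qb, Fin.exists_fin_succ, Finsupp.add_apply, Finsupp.single_apply] at c0 c1 c2 c3 c4 c5
      simp at c0 c1 c2 c3 c4 c5
      have e0 : s 0 = 0 ∨ s 0 = 1 := by omega
      have e1 : s 1 = 0 ∨ s 1 = 1 := by omega
      have e2 : s 2 = 0 ∨ s 2 = 1 := by omega
      have hx : ¬ (s 0 = 0 ∧ s 1 = 0 ∧ s 2 = 0) := by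
        rintro ⟨a, b, c⟩
        apply hs0
        ext i
        fin_cases i <;> simp [a, b, c]
      have hy0 : ¬ (s 0 = 1 ∧ s 1 = 0 ∧ s 2 = 0) := by
        rintro ⟨a, b, c⟩
        apply hs1 0
        ext i
        fin_cases i <;> simp [a, b, c]
      have hy1 : ¬ (s 0 = 0 ∧ s 1 = 1 ∧ s 2 = 0) := by
        rintro ⟨a, b, c⟩
        apply hs1 1
        ext i
        fin_cases i <;> simp [a, b, c]
      have hy2 : ¬ (s 0 = 0 ∧ s 1 = 0 ∧ s 2 = 1) := by
        rintro ⟨a, b, c⟩
        apply hs1 2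
        ext i
        fin_cases i <;> simp [a, b, c]
      omega
    obtain ⟨k, hk⟩ := key
    exact ⟨_, ⟨k, rfl⟩, hk⟩
  rw [← Set.range_comp, Ideal.mem_span_range_iff_exists_fun] at hmem
  obtain ⟨g, hg⟩ := hmem
  refine ⟨g, ?_⟩
  rw [← hg]
  refine Finset.sum_congr rfl fun k _ => ?_
  simp only [Function.comp, quad, X, monomial_mul, mul_one]

/-- The exponent of the `k`-th quadric. -/
noncomputable def ex (k : Fin 6) : Fin 3 →₀ ℕ := Finsupp.single (qa k) 1 + Finsupp.single (qb k) 1

theorem quad_eq (k : Fin 6) : quad k = MvPolynomial.monomial (ex k) (1 : ℚ) := by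
  simp only [quad, ex, MvPolynomial.X, MvPolynomial.monomial_mul, mul_one]

theorem ex_le (i l : Fin 6) : ex i ≤ ex l ↔ i = l := by
  constructor
  · intro h
    have h0 := h 0
    have h1 := h 1
    have h2 := h 2
    revert h0 h1 h2
    simp only [ex, Finsupp.add_apply, Finsupp.single_apply]
    clear h
    revert i l
    decide
  · rintro rfl; exact le_rfl

theorem coeff_ex (a : MvPolynomial (Fin 3) ℚ) (i l : Fin 6) :
    MvPolynomial.coeff (ex l) (a * quad i) = if i = l then MvPolynomial.coeff 0 a else 0 := by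
  rw [quad_eq, MvPolynomial.coeff_mul_monomial']
  by_cases h : i = l
  · subst h; simp
  · rw [if_neg (by rwa [ex_le]), if_neg h]

theorem coeff_single (a : MvPolynomial (Fin 3) ℚ) (i : Fin 6) :
    MvPolynomial.coeff (Finsupp.single 0 1) (a * quad i) = 0 := by
  rw [quad_eq, MvPolynomial.coeff_mul_monomial', if_neg]
  intro h
  have h0 := h 0
  have h1 := h 1
  have h2 := h 2
  revert h0 h1 h2
  simp only [ex, Finsupp.add_apply, Finsupp.single_apply]
  clear h
  revert i
  decide

theorem B1_coeff (v : Fin 6 → PP) (hv : v ∈ B1) (k : ℕ) :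
    MvPolynomial.coeff (Finsupp.single 0 1) ((v 4).coeff k) = 0 ∧
    MvPolynomial.coeff (ex 0) ((v 4).coeff k) + MvPolynomial.coeff (ex 4) ((v 0).coeff k) = 0 ∧
    MvPolynomial.coeff (ex 3) ((v 2).coeff k) + MvPolynomial.coeff (ex 2) ((v 3).coeff k) = 0 ∧
    MvPolynomial.coeff (ex 5) ((v 1).coeff k) + MvPolynomial.coeff (ex 1) ((v 5).coeff k) = 0 := by
  have key : ∀ p : PP,
      MvPolynomial.coeff (Finsupp.single 0 1) (((p • v) 4).coeff k) = 0 ∧
      MvPolynomial.coeff (ex 0) (((p • v) 4).coeff k) + MvPolynomial.coeff (ex 4) (((p • v) 0).coeff k) = 0 ∧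
      MvPolynomial.coeff (ex 3) (((p • v) 2).coeff k) + MvPolynomial.coeff (ex 2) (((p • v) 3).coeff k) = 0 ∧
      MvPolynomial.coeff (ex 5) (((p • v) 1).coeff k) + MvPolynomial.coeff (ex 1) (((p • v) 5).coeff k) = 0 := by
    unfold B1 at hv
    induction hv using Submodule.span_induction with
    | mem v hv =>
      obtain ⟨⟨i, j⟩, rfl⟩ := hv
      intro p
      have hc : ∀ l : Fin 6, ((p • (Pi.single j (Qd i) - Pi.single i (Qd j) : Fin 6 → PP)) l).coeff k =
          (if l = j then p.coeff k * quad i else 0) - (if l = i then p.coeff k * quad j else 0) := by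
        intro l
        simp only [Pi.smul_apply, Pi.sub_apply, Pi.single_apply, smul_eq_mul, mul_sub, mul_ite,
          mul_zero, Polynomial.coeff_sub]
        congr 1
        · split <;> simp [Qd]
        · split <;> simp [Qd]
      have hif : ∀ (c : Prop) [Decidable c] (s : Fin 3 →₀ ℕ) (a : MvPolynomial (Fin 3) ℚ),
          MvPolynomial.coeff s (if c then a else 0) = if c then MvPolynomial.coeff s a else 0 := by
        intro c _ s a; split <;> simp
      simp only [hc, MvPolynomial.coeff_sub, hif, coeff_ex, coeff_single]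
      refine ⟨by simp, ?_, ?_, ?_⟩
      · fin_cases i <;> fin_cases j <;> simp
      · fin_cases i <;> fin_cases j <;> simp
      · fin_cases i <;> fin_cases j <;> simp
    | zero => intro p; simp
    | add v w _ _ hv hw =>
      intro p
      obtain ⟨a1, a2, a3, a4⟩ := hv p
      obtain ⟨b1, b2, b3, b4⟩ := hw p
      simp only [smul_add, Pi.add_apply, Polynomial.coeff_add, MvPolynomial.coeff_add]
      refine ⟨?_, ?_, ?_, ?_⟩ <;> linarith
    | smul r v _ hv =>
      intro p
      rw [smul_smul]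
      exact hv (p * r)
  simpa using key 1

theorem exists_kap (f : PP) (hf : Polynomial.derivative f • om = 0)
    (h0 : MvPolynomial.coeff 0 (f.coeff 0) = 0)
    (h1 : ∀ j, MvPolynomial.coeff (Finsupp.single j 1) (f.coeff 0) = 0) : ∃ n, kap n = f := by
  have hmem : Polynomial.derivative f • om0 ∈ B1 := by
    rw [om, ← map_smul, Submodule.mkQ_apply, Submodule.Quotient.mk_eq_zero] at hf
    exact hf
  have hk : ∀ k, MvPolynomial.coeff 0 (f.coeff k) = 0 ∧
      ∀ j, MvPolynomial.coeff (Finsupp.single j 1) (f.coeff k) = 0 := by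
    intro k
    rcases k with _ | k
    · exact ⟨h0, h1⟩
    obtain ⟨a1, a2, a3, a4⟩ := B1_coeff _ hmem k
    have hX : ∀ (a : MvPolynomial (Fin 3) ℚ) (j : Fin 3) (s : Fin 3 →₀ ℕ),
        MvPolynomial.coeff (s + Finsupp.single j 1) (a * MvPolynomial.X j) = MvPolynomial.coeff s a := by
      intro a j s; rw [MvPolynomial.coeff_mul_X]
    have e0 : ex 0 = Finsupp.single 0 1 + Finsupp.single 0 1 := rfl
    have e3 : ex 3 = Finsupp.single 1 1 + Finsupp.single 1 1 := rfl
    have e5 : ex 5 = Finsupp.single 2 1 + Finsupp.single 2 1 := rfl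
    have ez : (Finsupp.single 0 1 : Fin 3 →₀ ℕ) = 0 + Finsupp.single 0 1 := by simp
    have hk1 : ((k : ℚ) + 1) ≠ 0 := by positivity
    have hder : ∀ s, MvPolynomial.coeff s ((Polynomial.derivative f).coeff k) =
        MvPolynomial.coeff s (f.coeff (k + 1)) * ((k : ℚ) + 1) := by
      intro s
      rw [Polynomial.coeff_derivative]
      have : (((k : ℕ) : MvPolynomial (Fin 3) ℚ) + 1) = MvPolynomial.C ((k : ℚ) + 1) := by simp
      rw [this, mul_comm, MvPolynomial.coeff_C_mul, mul_comm]
    have v4 : (((Polynomial.derivative f) • om0) 4).coeff k =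
        (Polynomial.derivative f).coeff k * MvPolynomial.X 0 := by
      simp [om0]
    have v0 : (((Polynomial.derivative f) • om0) 0).coeff k = 0 := by simp [om0]
    have v2 : (((Polynomial.derivative f) • om0) 2).coeff k =
        (Polynomial.derivative f).coeff k * MvPolynomial.X 1 := by
      simp [om0]
    have v3 : (((Polynomial.derivative f) • om0) 3).coeff k = 0 := by simp [om0]
    have v1 : (((Polynomial.derivative f) • om0) 1).coeff k =
        MvPolynomial.C (-2) * ((Polynomial.derivative f).coeff k * MvPolynomial.X 2) := by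
      have : (((Polynomial.derivative f) • om0) 1) =
          (Polynomial.derivative f) * Polynomial.C (MvPolynomial.C (-2) * MvPolynomial.X 2) := rfl
      rw [this, Polynomial.coeff_mul_C]
      ring
    have v5 : (((Polynomial.derivative f) • om0) 5).coeff k = 0 := by simp [om0]
    rw [v4, ez, hX, hder] at a1
    rw [v4, v0, e0, hX, hder] at a2
    rw [v2, v3, e3, hX, hder] at a3
    rw [v1, v5, e5, MvPolynomial.coeff_C_mul, hX, hder] at a4
    simp only [MvPolynomial.coeff_zero, add_zero] at a2 a3 a4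
    refine ⟨(mul_eq_zero.mp a1).resolve_right hk1, fun j => ?_⟩
    fin_cases j
    · exact (mul_eq_zero.mp a2).resolve_right hk1
    · exact (mul_eq_zero.mp a3).resolve_right hk1
    · have := (mul_eq_zero.mp a4).resolve_left (by norm_num)
      exact (mul_eq_zero.mp this).resolve_right hk1
  choose g hg using fun k => exists_quad (f.coeff k) (hk k).1 (hk k).2
  refine ⟨B1.mkQ (fun l => ∑ k ∈ f.support, Polynomial.monomial k (g k l)), ?_⟩
  rw [kap_mk]
  have : ∀ v : Fin 6 → PP, kap0 v = ∑ l, v l * Qd l := by intro v; simp [kap0]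
  rw [this]
  conv_rhs => rw [f.as_sum_support]
  simp only [Finset.sum_mul, Qd, Polynomial.monomial_mul_C]
  rw [Finset.sum_comm]
  refine Finset.sum_congr rfl fun k _ => ?_
  rw [← map_sum, ← hg]

end Anick2
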