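import Pool.Agent.Helper2.GCA.Basic
import Pool.Agent.Helper2.GCA.Obst

namespace Anick2

attribute [local irreducible] instRingLam

section rec
variable {X : Type}

/-- Course-of-values recursion. -/
noncomputable def recf (e : X) (c : ℕ → (ℕ → X) → X) : ℕ → X
  | n => c n (fun k => if _h : k < n then recf e c k else e)

theorem recf_eq (e : X) (c : ℕ → (ℕ → X) → X) (n : ℕ) :
    recf e c n = c n (fun k => if k < n then recf e c k else e) := by
  rw [recf]
  congr 1

theorem exists_rec (e : X) (P : ℕ → (ℕ → X) → X → Prop) (h : ∀ n g, ∃ x, P n g x) :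
    ∃ f : ℕ → X, ∀ n, P n (fun k => if k < n then f k else e) (f n) := by
  choose c hc using h
  refine ⟨recf e c, fun n => ?_⟩
  have := hc n (fun k => if k < n then recf e c k else e)
  rw [recf_eq e c n]
  exact this

end rec

/-- The generators: `b i` of degree 2, `y k` of degree 3, `x` of degree 4 and the tower generators
`w m j` of degree `2m+5`. -/
inductive Gen
  | b (i : Fin 3) | y (k : Fin 6) | x | w (m j : ℕ)

def gdeg : Gen → ℕ
  | .b _ => 2
  | .y _ => 3
  | .x => 4
  | .w m _ => 2 * m + 5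

abbrev BL : Type := Lam gdeg

/-- The differential on the generators. -/
noncomputable def DF (F : ℕ → ℕ → BL) : Gen → BL
  | .b _ => 0
  | .y k => gen gdeg (.b (qa k)) * gen gdeg (.b (qb k))
  | .x => gen gdeg (.b 0) * gen gdeg (.y 4) + gen gdeg (.b 1) * gen gdeg (.y 2)
      - (2 : ℚ) • (gen gdeg (.b 2) * gen gdeg (.y 1))
  | .w m j => pr gdeg (2 * m + 6) (F m j)

theorem hDF (F : ℕ → ℕ → BL) (i : Gen) : DF F i ∈ hom gdeg (gdeg i + 1) := by
  cases i with
  | b i => exact zero_mem _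
  | y k =>
    have h := mul_mem_hom gdeg (gen_mem_hom gdeg (.b (qa k))) (gen_mem_hom gdeg (.b (qb k)))
    exact h
  | x =>
    have h : ∀ (i : Fin 3) (k : Fin 6), gen gdeg (.b i) * gen gdeg (.y k) ∈ hom gdeg 5 := by
      intro i k
      have h := mul_mem_hom gdeg (gen_mem_hom gdeg (.b i)) (gen_mem_hom gdeg (.y k))
      exact h
    exact sub_mem (add_mem (h _ _) (h _ _)) (Submodule.smul_mem _ _ (h _ _))
  | w m j => exact pr_mem gdeg _ _

noncomputable def dF (F : ℕ → ℕ → BL) : BL →ₗ[ℚ] BL := der gdeg (DF F) (hDF F)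

/-- The active generators. -/
def act (r : ℕ → ℕ) : Set Gen := {i | ∀ m j, i = .w m j → j < r m}

theorem act_finite (r : ℕ → ℕ) (n : ℕ) (h : ∀ k, n ≤ k → r k = 0) : (act r).Finite := by
  have hfin : (Set.range Gen.b ∪ Set.range Gen.y ∪ {Gen.x} ∪
      ⋃ k ∈ Finset.range n, (fun j => Gen.w k j) '' Set.Iio (r k)).Finite := by
    refine Set.Finite.union (Set.Finite.union (Set.Finite.union (Set.finite_range _)
      (Set.finite_range _)) (Set.finite_singleton _)) ?_
    exact Set.Finite.biUnion (Finset.finite_toSet _) fun k _ => (Set.finite_Iio _).image _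
  refine hfin.subset ?_
  intro i hi
  cases i with
  | b i => exact Or.inl (Or.inl (Or.inl ⟨i, rfl⟩))
  | y k => exact Or.inl (Or.inl (Or.inr ⟨k, rfl⟩))
  | x => exact Or.inl (Or.inr rfl)
  | w m j =>
    refine Or.inr ?_
    have hj : j < r m := hi m j rfl
    have hm : m < n := by
      by_contra hcon
      rw [h m (not_lt.mp hcon)] at hj
      exact absurd hj (Nat.not_lt_zero _)
    simp only [Finset.mem_range, Set.mem_iUnion]
    exact ⟨m, hm, j, hj, rfl⟩

abbrev XX : Type := ℕ × (ℕ → BL)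

noncomputable def tr (n : ℕ) (g : ℕ → XX) : ℕ → XX := fun k => if k < n then g k else (0, fun _ => 0)

noncomputable def RR (g : ℕ → XX) : ℕ → ℕ := fun k => (g k).1
noncomputable def FF (g : ℕ → XX) : ℕ → ℕ → BL := fun k => (g k).2

theorem gdeg_pos (i : Gen) : 1 ≤ gdeg i := by cases i <;> simp [gdeg]
theorem gdeg_two (i : Gen) : 2 ≤ gdeg i := by cases i <;> simp [gdeg]

/-- The closed elements of degree `2n+6` of the `n`-th stage. -/
noncomputable def Zm (n : ℕ) (g : ℕ → XX) : Submodule ℚ BL :=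
  homS gdeg (act (RR (tr n g))) (2 * n + 6) ⊓ LinearMap.ker (dF (FF (tr n g)))

def PT (n : ℕ) (g : ℕ → XX) (x : XX) : Prop :=
  (∀ j, x.2 j ∈ Zm n g) ∧ (∀ j, x.1 ≤ j → x.2 j = 0) ∧
    Zm n g ≤ Submodule.span ℚ (Set.range x.2)

theorem exists_PT (n : ℕ) (g : ℕ → XX) : ∃ x, PT n g x := by
  have hfin : (act (RR (tr n g))).Finite := act_finite _ n (by
    intro k hk; simp [RR, tr, not_lt.mpr hk])
  have hfg : (Zm n g).FG := (homS_fg gdeg hfin gdeg_pos (2 * n + 6)).of_le inf_le_left
  rw [Submodule.fg_iff_exists_fin_generating_family] at hfg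
  obtain ⟨N, s, hs⟩ := hfg
  refine ⟨(N, fun j => if h : j < N then s ⟨j, h⟩ else 0), ?_, ?_, ?_⟩
  · intro j
    by_cases h : j < N
    · simp only [h, dif_pos]
      rw [← hs]
      exact Submodule.subset_span ⟨_, rfl⟩
    · simp only [h, dif_neg, not_false_iff]
      exact zero_mem _
  · intro j hj
    simp [not_lt.mpr hj]
  · conv_lhs => rw [← hs]
    rw [Submodule.span_le]
    rintro _ ⟨j, rfl⟩
    refine Submodule.subset_span ⟨j, ?_⟩
    simp

theorem tr_tr (n : ℕ) (g : ℕ → XX) : tr n (tr n g) = tr n g := by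
  funext k
  by_cases h : k < n <;> simp [tr, h]

theorem exists_tower : ∃ f : ℕ → XX, ∀ n, PT n f (f n) := by
  obtain ⟨f, hf⟩ := exists_rec (0, fun _ => 0) PT exists_PT
  refine ⟨f, fun n => ?_⟩
  have h := hf n
  have e : (fun k => if k < n then f k else (0, fun _ => 0)) = tr n f := rfl
  rw [e] at h
  unfold PT Zm at h
  rw [tr_tr] at h
  exact h

section tower
variable (f : ℕ → XX) (hf : ∀ n, PT n f (f n))

include hf in
theorem f_mem (n j : ℕ) : (f n).2 j ∈ homS gdeg (act (RR (tr n f))) (2 * n + 6) :=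
  ((hf n).1 j).1

include hf in
theorem DF_w (n j : ℕ) : DF (FF f) (.w n j) = (f n).2 j := by
  change pr gdeg (2 * n + 6) ((f n).2 j) = _
  rw [pr_hom gdeg (homS_le gdeg _ _ (f_mem f hf n j)), if_pos rfl]

theorem dF_stage (n N : ℕ) {a : BL} (ha : a ∈ homS gdeg (act (RR (tr n f))) N) :
    dF (FF f) a = dF (FF (tr n f)) a := by
  refine der_congr gdeg _ _ _ _ ?_ ha
  intro i hi
  cases i with
  | b i => rfl
  | y k => rfl
  | x => rfl
  | w m j =>
    have hj : j < RR (tr n f) m := hi m j rfl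
    have hm : m < n := by
      by_contra hcon
      simp [RR, tr, hcon] at hj
    simp [DF, FF, tr, hm]

include hf in
theorem dF_f (n j : ℕ) : dF (FF f) ((f n).2 j) = 0 := by
  rw [dF_stage f n _ (f_mem f hf n j)]
  exact ((hf n).1 j).2

theorem bcomm (i j : Fin 3) : gen gdeg (.b i) * gen gdeg (.b j) = gen gdeg (.b j) * gen gdeg (.b i) := by
  rw [gen_comm]
  norm_num [gdeg]

theorem dF_b (F : ℕ → ℕ → BL) (i : Fin 3) : dF F (gen gdeg (.b i)) = 0 := by
  rw [dF, der_gen]; rfl

theorem dF_bmul (F : ℕ → ℕ → BL) (i : Fin 3) (a : BL) :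
    dF F (gen gdeg (.b i) * a) = gen gdeg (.b i) * dF F a := by
  have h := der_leibniz gdeg (DF F) (hDF F) (gen_mem_hom gdeg (.b i)) a
  have h2 := dF_b F i
  unfold dF at h2 ⊢
  rw [h, h2]
  simp [gdeg]

theorem dF_y (F : ℕ → ℕ → BL) (k : Fin 6) :
    dF F (gen gdeg (.y k)) = gen gdeg (.b (qa k)) * gen gdeg (.b (qb k)) := by
  rw [dF, der_gen]; rfl

include hf in
theorem dF_sq (a : BL) : dF (FF f) (dF (FF f) a) = 0 := by
  refine der_sq gdeg _ _ ?_ a
  intro i
  change dF (FF f) (DF (FF f) i) = 0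
  cases i with
  | b i => simp [DF]
  | y k => simp only [DF]; rw [dF_bmul, dF_b, mul_zero]
  | x =>
    simp only [DF]
    rw [map_sub, map_add, map_smul, dF_bmul, dF_bmul, dF_bmul, dF_y, dF_y, dF_y]
    have e1 : gen gdeg (Gen.b 0) * (gen gdeg (Gen.b (qa 4)) * gen gdeg (Gen.b (qb 4))) =
        gen gdeg (Gen.b 0) * (gen gdeg (Gen.b 1) * gen gdeg (Gen.b 2)) := rfl
    have e2 : gen gdeg (Gen.b 1) * (gen gdeg (Gen.b (qa 2)) * gen gdeg (Gen.b (qb 2))) =
        gen gdeg (Gen.b 0) * (gen gdeg (Gen.b 1) * gen gdeg (Gen.b 2)) := by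
      change gen gdeg (Gen.b 1) * (gen gdeg (Gen.b 0) * gen gdeg (Gen.b 2)) = _
      rw [← mul_assoc, bcomm 1 0, mul_assoc]
    have e3 : gen gdeg (Gen.b 2) * (gen gdeg (Gen.b (qa 1)) * gen gdeg (Gen.b (qb 1))) =
        gen gdeg (Gen.b 0) * (gen gdeg (Gen.b 1) * gen gdeg (Gen.b 2)) := by
      change gen gdeg (Gen.b 2) * (gen gdeg (Gen.b 0) * gen gdeg (Gen.b 1)) = _
      rw [← mul_assoc, bcomm 2 0, mul_assoc, bcomm 2 1]
    rw [e1, e2, e3, two_smul]
    abel
  | w m j => rw [DF_w f hf]; exact dF_f f hf m j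

theorem act_mono (n : ℕ) : act (RR (tr n f)) ⊆ act (RR f) := by
  intro i hi m j h
  have := hi m j h
  by_cases hm : m < n
  · simpa [RR, tr, hm] using this
  · simp [RR, tr, hm] at this

theorem degSum_split {i : Gen} {l : List Gen} (h : i ∈ l) :
    ∃ D', degSum gdeg l = gdeg i + D' ∧ (D' = 0 ∨ 2 ≤ D') := by
  obtain ⟨s, t, rfl⟩ := List.append_of_mem h
  refine ⟨degSum gdeg (s ++ t), ?_, ?_⟩
  · rw [degSum_append, degSum_cons, degSum_append]; ring
  · cases hst : s ++ t with
    | nil => left; rfl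
    | cons a u => right; rw [degSum_cons]; have := gdeg_two a; omega

theorem stage_of_degree (n : ℕ) {z : BL} (hz : z ∈ homS gdeg (act (RR f)) (2 * n + 6)) :
    z ∈ homS gdeg (act (RR (tr n f))) (2 * n + 6) := by
  refine homS_induction gdeg (C := fun z => z ∈ homS gdeg (act (RR (tr n f))) (2 * n + 6))
    (fun l hl hn => ?_) (zero_mem _) (fun a b ha hb => add_mem ha hb)
    (fun r a ha => Submodule.smul_mem _ _ ha) hz
  rw [← hn]
  refine mon_mem_homS gdeg l fun i hi => ?_
  intro m j h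
  subst h
  have hj := hl _ hi m j rfl
  obtain ⟨D', h1, h2⟩ := degSum_split hi
  have hm : m < n := by
    rw [hn] at h1
    simp only [gdeg] at h1
    omega
  simpa [RR, tr, hm] using hj

theorem mem_act_b (r : ℕ → ℕ) (i : Fin 3) : Gen.b i ∈ act r := by
  intro m j h; cases h
theorem mem_act_y (r : ℕ → ℕ) (i : Fin 6) : Gen.y i ∈ act r := by
  intro m j h; cases h
theorem mem_act_x (r : ℕ → ℕ) : Gen.x ∈ act r := by
  intro m j h; cases h

include hf in
theorem hDS (i : Gen) : DF (FF f) i ∈ homS gdeg (act (RR f)) (gdeg i + 1) := by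
  cases i with
  | b i => exact zero_mem _
  | y k =>
    refine Submodule.subset_span ⟨[.b (qa k), .b (qb k)], ?_, ?_, ?_⟩
    · intro i hi
      simp only [List.mem_cons, List.not_mem_nil, or_false] at hi
      rcases hi with rfl | rfl <;> exact mem_act_b _ _
    · simp [gdeg]
    · simp [DF]
  | x =>
    have key : ∀ (i : Fin 3) (k : Fin 6),
        gen gdeg (.b i) * gen gdeg (.y k) ∈ homS gdeg (act (RR f)) (gdeg Gen.x + 1) := by
      intro i k
      refine Submodule.subset_span ⟨[.b i, .y k], ?_, ?_, ?_⟩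
      · intro i hi
        simp only [List.mem_cons, List.not_mem_nil, or_false] at hi
        rcases hi with rfl | rfl
        · exact mem_act_b _ _
        · exact mem_act_y _ _
      · simp [gdeg]
      · simp
    exact sub_mem (add_mem (key _ _) (key _ _)) (Submodule.smul_mem _ _ (key _ _))
  | w m j =>
    rw [DF_w f hf]
    exact homS_mono gdeg (act_mono f m) _ (f_mem f hf m j)

include hf in
/-- All closed elements of even degree at least 6 are exact. -/
theorem exact_even (n : ℕ) {z : BL} (hz : z ∈ homS gdeg (act (RR f)) (2 * n + 6))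
    (hd : dF (FF f) z = 0) : ∃ u ∈ homS gdeg (act (RR f)) (2 * n + 5), dF (FF f) u = z := by
  have hz' := stage_of_degree f n hz
  have hZ : z ∈ Zm n f := ⟨hz', by
    have : dF (FF (tr n f)) z = 0 := by rw [← dF_stage f n _ hz']; exact hd
    exact this⟩
  have hspan := (hf n).2.2 hZ
  induction hspan using Submodule.span_induction with
  | mem z hz0 =>
    obtain ⟨j, rfl⟩ := hz0
    by_cases hj : j < (f n).1
    · refine ⟨gen gdeg (.w n j), ?_, ?_⟩
      · refine Submodule.subset_span ⟨[.w n j], ?_, ?_, ?_⟩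
        · intro i hi m' j' h
          simp only [List.mem_cons, List.not_mem_nil, or_false] at hi
          rw [hi] at h
          cases h
          exact hj
        · simp [gdeg]
        · simp
      · rw [dF, der_gen, DF_w f hf]
    · refine ⟨0, zero_mem _, ?_⟩
      rw [(hf n).2.1 j (not_lt.mp hj), map_zero]
  | zero => exact ⟨0, zero_mem _, by simp⟩
  | add a b ha hb iha ihb =>
    have hmem : ∀ c ∈ Submodule.span ℚ (Set.range (f n).2), c ∈ Zm n f := by
      intro c hc
      have : Submodule.span ℚ (Set.range (f n).2) ≤ Zm n f := by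
        rw [Submodule.span_le]; rintro _ ⟨j, rfl⟩; exact (hf n).1 j
      exact this hc
    have h1 : ∀ c ∈ Zm n f, c ∈ homS gdeg (act (RR f)) (2 * n + 6) :=
      fun c hc => homS_mono gdeg (act_mono f n) _ hc.1
    have h2 : ∀ c ∈ Zm n f, dF (FF f) c = 0 := fun c hc => by
      rw [dF_stage f n _ hc.1]; exact hc.2
    have ha' := hmem a ha
    have hb' := hmem b hb
    obtain ⟨u, hu, hu'⟩ := iha (h1 a ha') (h2 a ha') ha'.1 ha'
    obtain ⟨v, hv, hv'⟩ := ihb (h1 b hb') (h2 b hb') hb'.1 hb'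
    exact ⟨u + v, add_mem hu hv, by rw [map_add, hu', hv']⟩
  | smul r a ha iha =>
    have hmem : ∀ c ∈ Submodule.span ℚ (Set.range (f n).2), c ∈ Zm n f := by
      intro c hc
      have : Submodule.span ℚ (Set.range (f n).2) ≤ Zm n f := by
        rw [Submodule.span_le]; rintro _ ⟨j, rfl⟩; exact (hf n).1 j
      exact this hc
    have h1 : ∀ c ∈ Zm n f, c ∈ homS gdeg (act (RR f)) (2 * n + 6) :=
      fun c hc => homS_mono gdeg (act_mono f n) _ hc.1
    have h2 : ∀ c ∈ Zm n f, dF (FF f) c = 0 := fun c hc => by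
      rw [dF_stage f n _ hc.1]; exact hc.2
    have ha' := hmem a ha
    obtain ⟨u, hu, hu'⟩ := iha (h1 a ha') (h2 a ha') ha'.1 ha'
    exact ⟨r • u, Submodule.smul_mem _ _ hu, by rw [map_smul, hu']⟩

end tower

end Anick2
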